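import Mathlib
import Pool.Agent.L7h28.UM.Stm

set_option autoImplicit false

/-! The Chinese remainder step and the pigeonhole step. -/

open Finset Filter

namespace Pool.Agent.L7h32.UM

open Pool.Agent.L7h28.UM

theorem s_crt : S_CRT := by
  intro K α β W hW hadm
  classical
  choose! n hn using hadm
  obtain ⟨⟨a0, ha0⟩, -⟩ : ∃ k : {k : ℕ // ∀ p ∈ W.primeFactors, k ≡ n p [MOD p]}, True :=
    ⟨Nat.chineseRemainderOfFinset n (fun p => p) W.primeFactors
      (fun p hp => (Nat.prime_of_mem_primeFactors hp).ne_zero) (by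
        intro p hp q hq hpq
        exact (Nat.coprime_primes (Nat.prime_of_mem_primeFactors hp)
          (Nat.prime_of_mem_primeFactors hq)).2 hpq), trivial⟩
  refine ⟨a0, fun j => ?_⟩
  by_contra hcon
  obtain ⟨p, hp, h1, h2⟩ := Nat.Prime.not_coprime_iff_dvd.1 hcon
  rcases (Nat.Prime.dvd_mul hp).1 h2 with h3 | h3
  · have h4 : p ∣ β j := (Nat.dvd_add_right (h3.mul_right a0)).1 h1
    exact hn p hp j (dvd_add (h3.mul_right _) h4)
  · have h4 := ha0 p (Nat.mem_primeFactors.2 ⟨hp, h3, hW.ne'⟩)
    have h5 : α j * a0 + β j ≡ α j * n p + β j [MOD p] := (h4.mul_left _).add_right _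
    exact hn p hp j ((h5.dvd_iff (dvd_refl p)).1 h1)

theorem pick (q₁ α : ℕ) (h : ¬ q₁ ∣ α) : ∃ l : ℕ, l.Prime ∧ ∀ W : ℕ, ¬ l ∣ W → ¬ q₁ ∣ α * W := by
  rw [Nat.dvd_iff_prime_pow_dvd_dvd] at h
  push Not at h
  obtain ⟨l, k, hl, h1, h2⟩ := h
  refine ⟨l, hl, fun W hW hd => h2 ?_⟩
  have h3 : l ^ k ∣ α * W := h1.trans hd
  exact (Nat.Coprime.pow_left k ((Nat.Prime.coprime_iff_not_dvd hl).2 hW)).dvd_of_dvd_mul_right h3

theorem s_pg : S_PG := by
  intro K1 hK1
  classical
  refine ⟨K1 + K1 * K1, ?_⟩
  intro q₁ α hq hα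
  choose l hl hW using fun j => pick q₁ (α j) (hα j).2
  -- the two kinds of indices
  rcases Nat.lt_or_ge ((univ : Finset (Fin (K1 + K1 * K1))).filter (fun j => K1 < l j)).card K1 with hA | hA
  · -- many small primes
    have hB : K1 * K1 < ((univ : Finset (Fin (K1 + K1 * K1))).filter (fun j => ¬ K1 < l j)).card := by
      have h1 := Finset.card_filter_add_card_filter_not (s := (univ : Finset (Fin (K1 + K1 * K1))))
        (fun j => K1 < l j)
      rw [Finset.card_univ, Fintype.card_fin] at h1
      omega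
    obtain ⟨p, hp, hp2⟩ := Finset.exists_lt_card_fiber_of_mul_lt_card_of_maps_to
      (s := (univ : Finset (Fin (K1 + K1 * K1))).filter (fun j => ¬ K1 < l j)) (t := Finset.Icc 1 K1)
      (f := l) (n := K1) (by
        intro j hj
        rw [Finset.mem_filter] at hj
        rw [Finset.mem_Icc]
        exact ⟨(hl j).one_lt.le, by omega⟩) (by
        rw [Nat.card_Icc]
        simpa using hB)
    obtain ⟨s, hs, hs2⟩ := Finset.exists_subset_card_eq hp2.le
    have hmem : ∀ j ∈ s, l j = p := fun j hj => (Finset.mem_filter.1 (hs hj)).2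
    have hpp : p.Prime := by
      have hne : s.Nonempty := by
        rw [← Finset.card_pos]
        omega
      obtain ⟨j, hj⟩ := hne
      rw [← hmem j hj]
      exact hl j
    refine ⟨(s.orderEmbOfFin hs2).toEmbedding, {p}, ?_, ?_, ?_⟩
    · intro q hq
      rw [Finset.mem_singleton] at hq
      rw [hq]
      exact hpp
    · rw [Finset.sum_singleton]
      have : (1 : ℝ) ≤ p := by exact_mod_cast hpp.one_lt.le
      rw [div_le_one (by linarith)]
      exact this
    · intro j W h1
      have h2 := h1 p (Finset.mem_singleton_self p)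
      apply hW
      have h3 : l ((s.orderEmbOfFin hs2).toEmbedding j) = p := hmem _ (Finset.orderEmbOfFin_mem _ _ _)
      rw [h3]
      exact h2
  · -- many large primes
    obtain ⟨s, hs, hs2⟩ := Finset.exists_subset_card_eq hA
    refine ⟨(s.orderEmbOfFin hs2).toEmbedding, s.image l, ?_, ?_, ?_⟩
    · intro q hq
      obtain ⟨j, -, rfl⟩ := Finset.mem_image.1 hq
      exact hl j
    · have hK0 : (0 : ℝ) < K1 := by exact_mod_cast hK1
      calc ∑ p ∈ s.image l, (1 : ℝ) / p ≤ ∑ _p ∈ s.image l, (1 : ℝ) / K1 := by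
            apply Finset.sum_le_sum
            intro p hp
            obtain ⟨j, hj, rfl⟩ := Finset.mem_image.1 hp
            have h1 : K1 < l j := (Finset.mem_filter.1 (hs hj)).2
            exact one_div_le_one_div_of_le hK0 (by exact_mod_cast h1.le)
        _ = ((s.image l).card : ℝ) * (1 / K1) := by rw [Finset.sum_const, nsmul_eq_mul]
        _ ≤ (K1 : ℝ) * (1 / K1) := by
            apply mul_le_mul_of_nonneg_right _ (by positivity)
            have h1 : (s.image l).card ≤ K1 := Finset.card_image_le.trans hs2.le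
            exact_mod_cast h1
        _ = 1 := by field_simp
    · intro j W h1
      apply hW
      exact h1 _ (Finset.mem_image_of_mem _ (Finset.orderEmbOfFin_mem _ _ _))

end Pool.Agent.L7h32.UM
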