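import Mathlib
import Pool.Agent.L7h28.UM.Stm

set_option autoImplicit false

/-! Bookkeeping for the sifting sets: Mertens. -/

open Finset Filter

namespace Pool.Agent.L7h32.UM

open Pool.Agent.L7h28.UM Pool.Agent.H378R2
open Pool.Agent.Erdos456.Mert (PP)

theorem evA (B C : ℝ) (hB : 0 ≤ B) : ∀ᶠ t : ℝ in atTop, B * Real.log t + C ≤ (t / 200) ^ (1 / 4 : ℝ) := by
  have h0 : Tendsto (fun t : ℝ => t / 200) atTop atTop := tendsto_id.atTop_div_const (by norm_num)
  have h1 := (isLittleO_log_rpow_atTop (show (0 : ℝ) < 1 / 4 by norm_num)).def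
    (show (0 : ℝ) < 1 / (2 * (B + 1)) by positivity)
  have h2 : Tendsto (fun v : ℝ => v ^ (1 / 4 : ℝ)) atTop atTop := tendsto_rpow_atTop (by norm_num)
  have h3 := h2.eventually_ge_atTop (2 * (B * Real.log 200 + C))
  filter_upwards [h0.eventually h1, h0.eventually h3, h0.eventually_ge_atTop 1] with t ht1 ht2 ht3
  rw [Real.norm_of_nonneg (Real.log_nonneg ht3), Real.norm_of_nonneg (Real.rpow_nonneg (by linarith) _)]
    at ht1
  have h4 : Real.log t = Real.log (t / 200) + Real.log 200 := by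
    rw [← Real.log_mul (by linarith) (by norm_num)]
    congr 1
    ring
  rw [h4]
  have h5 : B * Real.log (t / 200) ≤ (t / 200) ^ (1 / 4 : ℝ) / 2 := by
    have h6 : 0 ≤ (t / 200) ^ (1 / 4 : ℝ) := Real.rpow_nonneg (by linarith) _
    calc B * Real.log (t / 200) ≤ B * (1 / (2 * (B + 1)) * (t / 200) ^ (1 / 4 : ℝ)) :=
          mul_le_mul_of_nonneg_left ht1 hB
      _ = (B / (B + 1)) * ((t / 200) ^ (1 / 4 : ℝ) / 2) := by field_simp
      _ ≤ 1 * ((t / 200) ^ (1 / 4 : ℝ) / 2) := by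
          apply mul_le_mul_of_nonneg_right _ (by positivity)
          rw [div_le_one (by linarith)]
          linarith
      _ = _ := one_mul _
  linarith

theorem evB (B C : ℝ) (hB : 1 ≤ B) : ∀ᶠ t : ℝ in atTop,
    Real.log (B * Real.log t) + C ≤ Real.log (t / 200) / 32 := by
  have h0 : Tendsto (fun t : ℝ => Real.log (t / 200)) atTop atTop :=
    Real.tendsto_log_atTop.comp (tendsto_id.atTop_div_const (by norm_num))
  have h1 := Real.isLittleO_log_id_atTop.def (show (0 : ℝ) < 1 / 64 by norm_num)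
  filter_upwards [h0.eventually h1, h0.eventually_ge_atTop (64 * (Real.log (2 * B) + C)),
    h0.eventually_ge_atTop (Real.log 200), h0.eventually_ge_atTop 1, eventually_gt_atTop 0]
    with t ht1 ht2 ht3 ht4 ht5
  simp only [id] at ht1
  rw [Real.norm_of_nonneg (Real.log_nonneg ht4), Real.norm_of_nonneg (by linarith)] at ht1
  have h4 : Real.log t = Real.log (t / 200) + Real.log 200 := by
    rw [← Real.log_mul (by positivity) (by norm_num)]
    congr 1
    ring
  have h200 : 0 < Real.log 200 := Real.log_pos (by norm_num)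
  have h5 : Real.log (B * Real.log t) ≤ Real.log (2 * B * Real.log (t / 200)) := by
    apply Real.log_le_log
    · rw [h4]
      have : 0 < Real.log (t / 200) + Real.log 200 := by linarith
      positivity
    · rw [h4]
      nlinarith
  have h6 : Real.log (2 * B * Real.log (t / 200)) = Real.log (2 * B) + Real.log (Real.log (t / 200)) :=
    Real.log_mul (by linarith) (by linarith)
  linarith

/-- few large primes -/
theorem few (y : ℝ) (hy : 1 ≤ y) (U : Finset ℕ) (hU : ∀ p ∈ U, y ^ 4 ≤ (p : ℝ))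
    (hc : (U.card : ℝ) ≤ 2 * y ^ 2) :
    ∑ p ∈ U, Real.log p / p ≤ 4 ∧ ∑ p ∈ U, (1 : ℝ) / p ≤ 4 := by
  have hy2 : 0 < y ^ 2 := by positivity
  have key : ∀ p ∈ U, Real.log p / p ≤ 2 / y ^ 2 ∧ (1 : ℝ) / p ≤ 2 / y ^ 2 := by
    intro p hp
    have h1 := hU p hp
    have h2 : (1 : ℝ) ≤ y ^ 4 := one_le_pow₀ hy
    have hp0 : (0 : ℝ) < p := by linarith
    have h3 : y ^ 2 ≤ Real.sqrt p := by
      apply Real.le_sqrt_of_sq_le
      have h8 : (y ^ 2) ^ 2 = y ^ 4 := by ring
      rw [h8]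
      exact h1
    have h4 : Real.sqrt p * Real.sqrt p = p := Real.mul_self_sqrt hp0.le
    have hs0 : 0 < Real.sqrt p := Real.sqrt_pos.2 hp0
    constructor
    · have h5 : Real.log p ≤ 2 * Real.sqrt p := by
        have h6 := Real.log_le_sub_one_of_pos hs0
        have h7 : Real.log p = 2 * Real.log (Real.sqrt p) := by
          rw [Real.log_sqrt hp0.le]
          ring
        linarith
      rw [div_le_div_iff₀ hp0 hy2]
      calc Real.log p * y ^ 2 ≤ (2 * Real.sqrt p) * Real.sqrt p :=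
            mul_le_mul h5 h3 hy2.le (by positivity)
        _ = 2 * p := by rw [mul_assoc, h4]
    · rw [div_le_div_iff₀ hp0 hy2]
      have h5 : y ^ 2 ≤ y ^ 4 := pow_le_pow_right₀ hy (by norm_num)
      linarith
  have h2 : ∀ φ : ℕ → ℝ, (∀ p ∈ U, φ p ≤ 2 / y ^ 2) → ∑ p ∈ U, φ p ≤ 4 := by
    intro φ hφ
    calc ∑ p ∈ U, φ p ≤ ∑ _p ∈ U, 2 / y ^ 2 := Finset.sum_le_sum hφ
      _ = (U.card : ℝ) * (2 / y ^ 2) := by rw [Finset.sum_const, nsmul_eq_mul]
      _ ≤ (2 * y ^ 2) * (2 / y ^ 2) := mul_le_mul_of_nonneg_right hc (by positivity)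
      _ = 4 := by field_simp; norm_num
  exact ⟨h2 _ fun p hp => (key p hp).1, h2 _ fun p hp => (key p hp).2⟩

theorem s_e1 : S_E1 := by
  intro b hb
  classical
  obtain ⟨C1, hC1⟩ := Pool.Agent.Erdos456.Mert.mertens_log
  obtain ⟨C2, hC2⟩ := Pool.Agent.Erdos456.Mert.mertens_inv
  have hlog := Real.tendsto_log_atTop
  have hb1 : (1 : ℝ) ≤ b := by exact_mod_cast (by omega : 1 ≤ b)
  have e1 := hlog.eventually (evA b (C1 + 4) (by linarith))
  have e2 := hlog.eventually (evB b (C2 + 4) hb1)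
  filter_upwards [e1, e2, hlog.eventually_ge_atTop (10 : ℝ)] with z h1 h2 h3
  intro E T hE hT hTc
  obtain ⟨hE1, hE2, hE3⟩ := hE
  obtain ⟨N, hN⟩ : ∃ N : ℕ, N = ⌊(Real.log z) ^ b⌋₊ := ⟨_, rfl⟩
  have hpow : (10 : ℝ) ≤ (Real.log z) ^ b := by
    calc (10 : ℝ) ≤ Real.log z := h3
      _ = (Real.log z) ^ 1 := (pow_one _).symm
      _ ≤ (Real.log z) ^ b := pow_le_pow_right₀ (by linarith) (by omega)
  have hN1 : (N : ℝ) ≤ (Real.log z) ^ b := by
    rw [hN]
    exact Nat.floor_le (by linarith)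
  have hN3 : 3 ≤ N := by
    rw [hN]
    apply Nat.le_floor
    push_cast
    linarith
  have hNr : (3 : ℝ) ≤ N := by exact_mod_cast hN3
  have hlN : Real.log N ≤ b * Real.log (Real.log z) := by
    rw [← Real.log_pow]
    exact Real.log_le_log (by linarith) hN1
  have hlN1 : 1 ≤ Real.log N := by
    rw [Real.le_log_iff_exp_le (by linarith)]
    have := Real.exp_one_lt_d9
    linarith
  obtain ⟨U, hU⟩ : ∃ U : Finset ℕ, U = E.filter (fun p : ℕ => (Real.log z) ^ b < (p : ℝ)) ∪ T :=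
    ⟨_, rfl⟩
  have hUc : (U.card : ℝ) ≤ 2 * (Real.log z) ^ 2 := by
    rw [hU]
    have h4 := Finset.card_union_le (E.filter (fun p : ℕ => (Real.log z) ^ b < (p : ℝ))) T
    have h5 : (((E.filter (fun p : ℕ => (Real.log z) ^ b < (p : ℝ))) ∪ T).card : ℝ) ≤
      ((E.filter (fun p : ℕ => (Real.log z) ^ b < (p : ℝ))).card : ℝ) + T.card := by
        exact_mod_cast h4
    linarith
  have h4b : (Real.log z) ^ 4 ≤ (Real.log z) ^ b := pow_le_pow_right₀ (by linarith) hb
  have hUm : ∀ p ∈ U, (Real.log z) ^ 4 ≤ (p : ℝ) := by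
    intro p hp
    rw [hU, Finset.mem_union, Finset.mem_filter] at hp
    rcases hp with ⟨-, hp⟩ | hp
    · linarith
    · by_contra hcon
      push Not at hcon
      exact (hT p hp).2 (hE2 p (hT p hp).1 (by linarith))
  obtain ⟨f1, f2⟩ := few (Real.log z) (by linarith) U hUm hUc
  have hsub : E ∪ T ⊆ PP N ∪ U := by
    intro p hp
    rw [Finset.mem_union] at hp
    rw [Finset.mem_union, mem_PP', hU, Finset.mem_union, Finset.mem_filter]
    rcases hp with hp | hp
    · rcases le_or_gt (p : ℝ) ((Real.log z) ^ b) with h5 | h5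
      · left
        refine ⟨?_, hE1 p hp⟩
        rw [hN]
        exact Nat.le_floor h5
      · right
        left
        exact ⟨hp, h5⟩
    · right
      right
      exact hp
  have hsum : ∀ φ : ℕ → ℝ, (∀ p, 0 ≤ φ p) → ∑ p ∈ E ∪ T, φ p ≤ ∑ p ∈ PP N, φ p + ∑ p ∈ U, φ p := by
    intro φ hφ
    refine (Finset.sum_le_sum_of_subset_of_nonneg hsub (fun _ _ _ => hφ _)).trans ?_
    have h5 := Finset.sum_union_inter (s₁ := PP N) (s₂ := U) (f := φ)
    have h6 : 0 ≤ ∑ p ∈ PP N ∩ U, φ p := Finset.sum_nonneg fun _ _ => hφ _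
    linarith
  have hs1 := hsum (fun p => Real.log p / p) (fun p =>
    div_nonneg (Real.log_natCast_nonneg p) (Nat.cast_nonneg _))
  have hs2 := hsum (fun p => (1 : ℝ) / p) (fun p => by positivity)
  have hm1 := (abs_le.1 (hC1 N (by omega))).2
  have hm2 := (abs_le.1 (hC2 N hN3)).2
  have hloglog : Real.log (Real.log N) ≤ Real.log (b * Real.log (Real.log z)) :=
    Real.log_le_log (by linarith) hlN
  have hPP : PP N = (Finset.Icc 1 N).filter Nat.Prime := rfl
  rw [← hPP] at hm1 hm2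
  constructor
  · unfold LL
    refine le_trans ?_ h1
    linarith
  · unfold LL
    refine le_trans ?_ h2
    linarith

theorem BE_split {E P : Finset ℕ} (h : P ⊆ E) : BE E = BE P * BE (E \ P) := by
  unfold BE
  rw [mul_comm]
  exact (Finset.prod_sdiff h).symm

theorem s_e2 : S_E2 := by
  intro b hb
  classical
  obtain ⟨C2, hC2⟩ := Pool.Agent.Erdos456.Mert.mertens_inv
  have hlog := Real.tendsto_log_atTop
  have hb1 : (4 : ℝ) ≤ b := by exact_mod_cast hb
  refine ⟨Real.exp (-(Real.log (4 * b) + 2 * C2 + 5) - 4), Real.exp_pos _, ?_⟩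
  filter_upwards [hlog.eventually_ge_atTop (10 : ℝ), (hlog.comp hlog).eventually_ge_atTop (Real.log 400),
    eventually_gt_atTop 0] with X h1 h2 hX0
  simp only [Function.comp] at h2
  intro S E hS hS1 hE
  obtain ⟨hE1, hE2, hE3⟩ := hE
  have hl : Real.log (X ^ 400) = 400 * Real.log X := by
    rw [Real.log_pow]
    norm_num
  rw [hl] at hE2 hE3
  obtain ⟨P, hP⟩ : ∃ P : Finset ℕ, P = (Icc 1 ⌊Real.log X⌋₊).filter (fun p => p.Prime ∧ p ∉ S) :=
    ⟨_, rfl⟩
  have hPp : ∀ p ∈ P, p.Prime := by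
    intro p hp
    rw [hP, Finset.mem_filter] at hp
    exact hp.2.1
  have hWX : WX X S = ∏ p ∈ P, p := by
    unfold WX
    rw [hP]
  have hWtot : ((WX X S).totient : ℝ) / (WX X S : ℝ) = BE P := by
    rw [hWX]
    unfold BE
    have h3 : (∏ p ∈ P, p).totient = ∏ p ∈ P, (p - 1) := by
      clear hWX hP
      induction P using Finset.induction_on with
      | empty => simp
      | insert q s hq ih =>
        rw [Finset.prod_insert hq, Finset.prod_insert hq, Nat.totient_mul, ih (fun p hp =>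
          hPp p (Finset.mem_insert_of_mem hp)), Nat.totient_prime (hPp q (Finset.mem_insert_self q s))]
        apply Nat.Coprime.prod_right
        intro p hp
        apply (Nat.coprime_primes (hPp q (Finset.mem_insert_self q s))
          (hPp p (Finset.mem_insert_of_mem hp))).2
        rintro rfl
        exact hq hp
    rw [h3]
    push_cast
    rw [← Finset.prod_div_distrib]
    apply Finset.prod_congr rfl
    intro p hp
    have h4 := (hPp p hp).one_lt.le
    have h5 : (p : ℝ) ≠ 0 := by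
      have := (hPp p hp).pos
      positivity
    rw [Nat.cast_sub h4]
    field_simp
    push_cast
    ring
  rw [hWtot]
  have hlX : (1 : ℝ) ≤ 400 * Real.log X := by linarith
  have hPE : P ⊆ E := by
    intro p hp
    apply hE2 p (hPp p hp)
    rw [hP, Finset.mem_filter, Finset.mem_Icc] at hp
    have h3 : (p : ℝ) ≤ ⌊Real.log X⌋₊ := by exact_mod_cast hp.1.2
    have h4 : (⌊Real.log X⌋₊ : ℝ) ≤ Real.log X := Nat.floor_le (by linarith)
    calc (p : ℝ) ≤ 400 * Real.log X := by linarith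
      _ = (400 * Real.log X) ^ 1 := (pow_one _).symm
      _ ≤ (400 * Real.log X) ^ b := pow_le_pow_right₀ hlX (by omega)
  rw [BE_split hPE, mul_comm]
  have hBP : 0 ≤ BE P := by
    unfold BE
    apply Finset.prod_nonneg
    intro p hp
    have h4 := (hPp p hp).two_le
    have h5 : (2 : ℝ) ≤ p := by exact_mod_cast h4
    have h6 : 1 / (p : ℝ) ≤ 1 / 2 := one_div_le_one_div_of_le (by norm_num) h5
    linarith
  apply mul_le_mul_of_nonneg_left _ hBP
  have hge := BE_ge (E := E \ P) (fun p hp => hE1 p (Finset.mem_sdiff.1 hp).1)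
  refine le_trans ?_ hge
  apply Real.exp_le_exp.2
  -- the sum
  obtain ⟨M, hM⟩ : ∃ M : ℕ, M = ⌊Real.log X⌋₊ := ⟨_, rfl⟩
  obtain ⟨N, hN⟩ : ∃ N : ℕ, N = ⌊(400 * Real.log X) ^ b⌋₊ := ⟨_, rfl⟩
  have hM1 : (M : ℝ) ≤ Real.log X := by
    rw [hM]
    exact Nat.floor_le (by linarith)
  have hM2 : Real.log X < M + 1 := by
    rw [hM]
    exact Nat.lt_floor_add_one _
  have hpow : 400 * Real.log X ≤ (400 * Real.log X) ^ b := by
    calc 400 * Real.log X = (400 * Real.log X) ^ 1 := (pow_one _).symm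
      _ ≤ (400 * Real.log X) ^ b := pow_le_pow_right₀ hlX (by omega)
  have hMN : M ≤ N := by
    rw [hN]
    apply Nat.le_floor
    linarith
  have hM3 : (9 : ℝ) ≤ M := by linarith
  have hM3' : 3 ≤ M := by
    have : (3 : ℝ) ≤ M := by linarith
    exact_mod_cast this
  have hN1 : (N : ℝ) ≤ (400 * Real.log X) ^ b := by
    rw [hN]
    exact Nat.floor_le (by positivity)
  have hMNr : (M : ℝ) ≤ N := by exact_mod_cast hMN
  obtain ⟨U, hU⟩ : ∃ U : Finset ℕ, U = E.filter (fun p : ℕ => (400 * Real.log X) ^ b < (p : ℝ)) :=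
    ⟨_, rfl⟩
  have h4b : (400 * Real.log X) ^ 4 ≤ (400 * Real.log X) ^ b := pow_le_pow_right₀ hlX hb
  obtain ⟨-, f2⟩ := few (400 * Real.log X) hlX U (by
    intro p hp
    rw [hU, Finset.mem_filter] at hp
    linarith) (by
    rw [hU]
    have h5 : 0 ≤ (400 * Real.log X) ^ 2 := by positivity
    linarith)
  have hsub : E \ P ⊆ (PP N \ PP M) ∪ (S ∪ U) := by
    intro p hp
    rw [Finset.mem_sdiff] at hp
    have hpp := hE1 p hp.1
    rw [Finset.mem_union, Finset.mem_union, Finset.mem_sdiff, mem_PP', mem_PP']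
    by_cases hpS : p ∈ S
    · exact Or.inr (Or.inl hpS)
    · rcases le_or_gt (p : ℝ) ((400 * Real.log X) ^ b) with h5 | h5
      · left
        refine ⟨⟨?_, hpp⟩, ?_⟩
        · rw [hN]
          exact Nat.le_floor h5
        · rintro ⟨h6, -⟩
          apply hp.2
          rw [hP, Finset.mem_filter, Finset.mem_Icc, ← hM]
          exact ⟨⟨hpp.one_lt.le, h6⟩, hpp, hpS⟩
      · right
        right
        rw [hU, Finset.mem_filter]
        exact ⟨hp.1, h5⟩
  have hφ : ∀ p : ℕ, 0 ≤ (1 : ℝ) / p := fun p => by positivity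
  have hs1 : ∑ p ∈ E \ P, (1 : ℝ) / p ≤ ∑ p ∈ PP N \ PP M, (1 : ℝ) / p +
      (∑ p ∈ S, (1 : ℝ) / p + ∑ p ∈ U, (1 : ℝ) / p) := by
    refine (Finset.sum_le_sum_of_subset_of_nonneg hsub (fun p _ _ => hφ p)).trans ?_
    have h5 := Finset.sum_union_inter (s₁ := PP N \ PP M) (s₂ := S ∪ U) (f := fun p : ℕ => (1 : ℝ) / p)
    have h6 : 0 ≤ ∑ p ∈ (PP N \ PP M) ∩ (S ∪ U), (1 : ℝ) / p := Finset.sum_nonneg fun p _ => hφ p
    have h7 := Finset.sum_union_inter (s₁ := S) (s₂ := U) (f := fun p : ℕ => (1 : ℝ) / p)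
    have h8 : 0 ≤ ∑ p ∈ S ∩ U, (1 : ℝ) / p := Finset.sum_nonneg fun p _ => hφ p
    linarith
  have hsubMN : PP M ⊆ PP N := by
    intro p hp
    rw [mem_PP'] at hp ⊢
    exact ⟨hp.1.trans hMN, hp.2⟩
  have hs2 := Finset.sum_sdiff hsubMN (f := fun p : ℕ => (1 : ℝ) / p)
  have hm1 := (abs_le.1 (hC2 N (by omega))).2
  have hm2 := (abs_le.1 (hC2 M hM3')).1
  have hPPN : PP N = (Finset.Icc 1 N).filter Nat.Prime := rfl
  have hPPM : PP M = (Finset.Icc 1 M).filter Nat.Prime := rfl
  rw [← hPPN] at hm1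
  rw [← hPPM] at hm2
  -- log log N - log log M
  have hlM : Real.log (Real.log X) / 2 ≤ Real.log M := by
    have h5 : Real.log X ≤ (M : ℝ) ^ 2 := by nlinarith
    have h6 := Real.log_le_log (by linarith) h5
    rw [Real.log_pow] at h6
    push_cast at h6
    linarith
  have h400 : 0 < Real.log 400 := Real.log_pos (by norm_num)
  have hlN : Real.log N ≤ b * (2 * Real.log (Real.log X)) := by
    have h5 := Real.log_le_log (by linarith) hN1
    rw [Real.log_pow, Real.log_mul (by norm_num) (by linarith)] at h5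
    refine h5.trans ?_
    apply mul_le_mul_of_nonneg_left _ (by linarith)
    linarith
  have hlM0 : 0 < Real.log M := Real.log_pos (by linarith)
  have hlN0 : 0 < Real.log N := Real.log_pos (by linarith)
  have hfin : Real.log (Real.log N) ≤ Real.log (4 * b) + Real.log (Real.log M) := by
    rw [← Real.log_mul (by linarith) hlM0.ne']
    apply Real.log_le_log hlN0
    nlinarith
  linarith

end Pool.Agent.L7h32.UM
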