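import Mathlib
import Pool.Agent.L7h28.UM.Stm
import Pool.Agent.L7h32.UM.Mer
import Pool.Agent.H378R2.M5

set_option autoImplicit false

/-! The first sum of the uniform Maynard and Tao theorem. -/

open Finset Filter
open scoped ContDiff

namespace Pool.Agent.L7h32.UM

open Pool.Agent.L7h28.UM Pool.Agent.H378R2

theorem cls_count (N Q b : ℕ) (hQ : 0 < Q) :
    |(((Icc 1 N).filter (fun n => n ≡ b [MOD Q])).card : ℝ) - N / Q| ≤ 1 := by
  have h := Nat.Ioc_filter_modEq_card 0 N hQ b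
  have e : Finset.Ioc 0 N = Icc 1 N := by
    ext n
    simp only [Finset.mem_Ioc, Finset.mem_Icc]
    omega
  rw [e] at h
  have hQ0 : (0 : ℚ) < Q := by exact_mod_cast hQ
  have h0 : ((0 : ℕ) : ℚ) - b ≤ (N : ℚ) - b := by
    push_cast
    have : (0 : ℚ) ≤ N := Nat.cast_nonneg _
    linarith
  have h1 : ⌊(((0 : ℕ) : ℚ) - b) / Q⌋ ≤ ⌊((N : ℚ) - b) / Q⌋ :=
    Int.floor_le_floor (div_le_div_of_nonneg_right h0 hQ0.le)
  rw [max_eq_left (by linarith)] at h
  have h2 := Int.floor_le (((N : ℚ) - b) / Q)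
  have h3 := Int.lt_floor_add_one (((N : ℚ) - b) / Q)
  have h4 := Int.floor_le ((((0 : ℕ) : ℚ) - b) / Q)
  have h5 := Int.lt_floor_add_one ((((0 : ℕ) : ℚ) - b) / Q)
  have h6 : ((N : ℚ) - b) / Q - (((0 : ℕ) : ℚ) - b) / Q = N / Q := by
    push_cast
    ring
  have h7 : (((Icc 1 N).filter (fun n => n ≡ b [MOD Q])).card : ℚ) =
      (⌊((N : ℚ) - b) / Q⌋ : ℚ) - (⌊(((0 : ℕ) : ℚ) - b) / Q⌋ : ℚ) := by
    have h8 : ((((Icc 1 N).filter (fun n => n ≡ b [MOD Q])).card : ℤ) : ℚ) =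
      ((⌊((N : ℚ) - b) / Q⌋ - ⌊(((0 : ℕ) : ℚ) - b) / Q⌋ : ℤ) : ℚ) := by exact_mod_cast h
    push_cast at h8
    push_cast
    exact h8
  have h9 : |(((Icc 1 N).filter (fun n => n ≡ b [MOD Q])).card : ℚ) - N / Q| ≤ 1 := by
    rw [abs_le, h7]
    constructor <;> linarith
  have h10 : ((|(((Icc 1 N).filter (fun n => n ≡ b [MOD Q])).card : ℚ) - N / Q| : ℚ) : ℝ) ≤
      ((1 : ℚ) : ℝ) := by exact_mod_cast h9
  push_cast at h10
  exact h10

theorem sum1N {J : ℕ} (N : ℕ) (W a : ℕ) (hW : 0 < W) (F G : Fin J → ℝ → ℝ)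
    (L : ℝ) (hL : 0 < L) (cF cG : Fin J → ℝ)
    (hF : ∀ j x, |F j x| ≤ 1) (hG : ∀ j x, |G j x| ≤ 1)
    (hF0 : ∀ j x, cF j < x → F j x = 0) (hG0 : ∀ j x, cG j < x → G j x = 0)
    (E : Fin J → Finset ℕ) (R : ℕ) (c : Fin J → ℕ) (h : Fin J → ℤ)
    (hEW : ∀ j, ∀ p : ℕ, p.Prime → p ∉ E j → ¬ p ∣ W) (hEc : ∀ j, ∀ p : ℕ, p.Prime → p ∉ E j → ¬ p ∣ c j)
    (hres : ∀ i j, i ≠ j → ∀ p : ℕ, p.Prime → p ∉ E i → p ∉ E j → ∀ n : ℕ,
      ¬ ((p : ℤ) ∣ c i * n + h i ∧ (p : ℤ) ∣ c j * n + h j)) :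
    |∑ n ∈ Icc 1 N, (if n ≡ a [MOD W] then (1 : ℝ) else 0) *
        ∏ j, (VVm (E j) R L (F j) (c j * n + h j) * VVm (E j) R L (G j) (c j * n + h j)) -
      ((N : ℝ) / W) * sieveSum J F G L E (fun p _ => 1 / (p : ℝ)) R| ≤
    Real.exp (L * (∑ j, cF j + ∑ j, cG j)) := by
  classical
  refine (expand_le E R L F G N (fun n => if n ≡ a [MOD W] then (1 : ℝ) else 0)
    (fun n j => c j * n + h j) ((N : ℝ) / W) (fun p _ => 1 / (p : ℝ))).trans ?_
  refine (support_bound E R L 1 hL zero_le_one F G cF cG hF hG hF0 hG0 _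
    (fun _ _ => abs_nonneg _)).trans ?_
  rw [one_pow, one_mul]
  have key : ∀ d ∈ supp E R L cF, ∀ e ∈ supp E R L cG,
      |Err N (fun n => if n ≡ a [MOD W] then (1 : ℝ) else 0)
        (fun n j => c j * n + h j) ((N : ℝ) / W) (fun p _ => 1 / (p : ℝ)) d e| ≤ 1 := by
    intro d hd e he
    rw [mem_supp] at hd he
    by_cases hPC : PC d e
    · set D : Fin J → ℕ := fun j => Nat.lcm (d j) (e j) with hD
      have hd0 : ∀ j, d j ≠ 0 := fun j => by have := (mem_adm.1 (hd j).1).1.1; omega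
      have he0 : ∀ j, e j ≠ 0 := fun j => by have := (mem_adm.1 (he j).1).1.1; omega
      have hD0 : ∀ j, D j ≠ 0 := fun j => Nat.lcm_ne_zero (hd0 j) (he0 j)
      have hDW : ∀ j, (D j).Coprime W := fun j => adm_lcm_coprime (hd j).1 (he j).1 (hEW j)
      have hDc : ∀ j, (c j).Coprime (D j) := fun j => (adm_lcm_coprime (hd j).1 (he j).1 (hEc j)).symm
      have hDsq : ∀ j, Squarefree (D j) := fun j =>
        sqf_lcm (mem_adm.1 (hd j).1).2.1 (mem_adm.1 (he j).1).2.1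
      obtain ⟨b, hb⟩ := class_exists W a hW.ne' D c h hD0 hPC hDW hDc
      have hprodpos : 0 < ∏ j, D j := Finset.prod_pos fun j _ => Nat.pos_of_ne_zero (hD0 j)
      have h2 := cls_count N (W * ∏ j, D j) b (Nat.mul_pos hW hprodpos)
      have e1 : Err N (fun n => if n ≡ a [MOD W] then (1 : ℝ) else 0)
        (fun n j => c j * n + h j) ((N : ℝ) / W) (fun p _ => 1 / (p : ℝ)) d e =
          (((Icc 1 N).filter (fun n => n ≡ b [MOD (W * ∏ j, D j)])).card : ℝ) -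
            (N : ℝ) / ((W * ∏ j, D j : ℕ) : ℝ) := by
        unfold Err
        rw [if_pos hPC]
        congr 1
        · rw [Finset.card_filter]
          push_cast
          refine Finset.sum_congr rfl fun n _ => ?_
          by_cases hn : n ≡ b [MOD (W * ∏ j, D j)]
          · have h3 := (hb n).2 hn
            have hDC : DC (fun j => (c j : ℤ) * n + h j) d e := h3.2
            simp only [if_pos hn, if_pos hDC, if_pos h3.1]
          · rw [if_neg hn]
            by_cases hDC : DC (fun j => (c j : ℤ) * n + h j) d e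
            · rw [if_pos hDC]
              have hna : ¬ n ≡ a [MOD W] := fun hna => hn ((hb n).1 ⟨hna, hDC⟩)
              simp only [if_neg hna]
            · rw [if_neg hDC]
        · have : ∀ j : Fin J, ∏ p ∈ (Nat.lcm (d j) (e j)).primeFactors, (1 : ℝ) / p = 1 / (D j : ℝ) :=
            fun j => prod_one_div (hDsq j)
          simp_rw [this]
          rw [Finset.prod_div_distrib, Finset.prod_const_one]
          push_cast
          field_simp
      rw [e1]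
      exact h2
    · rw [not_PC_err _ _ _ _ (fun j => (hd j).1) (fun j => (he j).1) _ hPC]
      · norm_num
      · intro i j hij p hp hpi hpj n _ _
        exact hres i j hij p hp hpi hpj n
  calc _ ≤ ∑ d ∈ supp E R L cF, ∑ e ∈ supp E R L cG, (1 : ℝ) :=
        Finset.sum_le_sum fun d hd => Finset.sum_le_sum fun e he => key d hd e he
    _ = ((supp E R L cF).card : ℝ) * ((supp E R L cG).card : ℝ) := by
        rw [Finset.sum_const, Finset.sum_const, nsmul_eq_mul, nsmul_eq_mul, mul_one]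
    _ ≤ Real.exp (L * ∑ j, cF j) * Real.exp (L * ∑ j, cG j) := by
        have := supp_card E R L cF
        have := supp_card E R L cG
        gcongr
    _ = _ := by rw [mul_add, Real.exp_add]

/-- the asymptotic formula for the sets `E` of helper28 -/
theorem asympE (b : ℕ) (hb : 4 ≤ b) (J : ℕ) (F G : Fin J → ℝ → ℝ)
    (hF : ∀ j, ContDiff ℝ ∞ (F j)) (hG : ∀ j, ContDiff ℝ ∞ (G j))
    (hFc : ∀ j, HasCompactSupport (F j)) (hGc : ∀ j, HasCompactSupport (G j))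
    (hF0 : ∀ j x, 1 / 2 < x → F j x = 0) (hG0 : ∀ j x, 1 / 2 < x → G j x = 0)
    (ε : ℝ) (hε : 0 < ε) :
    ∀ᶠ z : ℝ in atTop, ∀ (E : Finset ℕ) (w : ℕ → Fin J → ℝ), EOK b z E →
      (∀ j, ∀ p : ℕ, p.Prime → |w p j - 1 / p| ≤ 2 / (p : ℝ) ^ 2) →
      |(∏ _j : Fin J, (LL z * BE E)) * sieveSum J F G (LL z) (fun _ => E) w (RR z) -
        ∏ j, DD (F j) (G j)| ≤ ε := by
  obtain ⟨δ, hδ, h⟩ := sieve_asymp J F G hF hG hFc hGc ε hε
  have e1 := LL_tendsto.eventually_ge_atTop (1 / δ)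
  have e2 := LL_tendsto.eventually_ge_atTop 2
  have e3 := Real.tendsto_log_atTop.eventually_ge_atTop (max 1 (1 / δ))
  filter_upwards [e1, e2, e3, s_e1 b hb] with z h1 h2 h3 h4
  intro E w hE hw
  obtain ⟨k1, k2⟩ := h4 E ∅ hE (by simp) (by
    rw [Finset.card_empty]
    push_cast
    positivity)
  rw [Finset.union_empty] at k1 k2
  apply h (LL z) (fun _ => E) w (RR z) h1
  · intro j x hx
    have h6 : 1 / 2 < x := by
      refine lt_of_le_of_lt ?_ hx
      rw [le_div_iff₀ (by linarith)]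
      have := RR_ge (LL z) h2
      unfold RR
      linarith
    exact ⟨hF0 j x h6, hG0 j x h6⟩
  · intro j p hp
    exact hE.1 p hp
  · intro j p hp hpl
    apply hE.2.1 p hp
    have h5 : 1 ≤ Real.log z := (le_max_left _ _).trans h3
    calc (p : ℝ) ≤ 1 / δ := hpl
      _ ≤ Real.log z := (le_max_right _ _).trans h3
      _ = (Real.log z) ^ 1 := (pow_one _).symm
      _ ≤ (Real.log z) ^ b := pow_le_pow_right₀ h5 (by omega)
  · intro j
    exact k1
  · intro j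
    exact k2
  · intro j p hp _
    exact hw j p hp

theorem s_s1 : S_S1 := by
  intro K B f c A hf b hb ε1 hε1
  classical
  obtain ⟨hsm, hcs, hf0, hc, hA, hf1⟩ := hf
  have hev : ∀ᶠ z : ℝ in atTop, ∀ a ∈ A, ∀ a' ∈ A, ∀ (E : Finset ℕ) (w : ℕ → Fin K → ℝ), EOK b z E →
      (∀ j, ∀ p : ℕ, p.Prime → |w p j - 1 / p| ≤ 2 / (p : ℝ) ^ 2) →
      |(∏ _j : Fin K, (LL z * BE E)) * sieveSum K (fun j => f (a j)) (fun j => f (a' j)) (LL z)
        (fun _ => E) w (RR z) - ∏ j, DD (f (a j)) (f (a' j))| ≤ ε1 / ((A.card : ℝ) ^ 2 + 1) := by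
    rw [Filter.eventually_all_finset]
    intro a _
    rw [Filter.eventually_all_finset]
    intro a' _
    exact asympE b hb K (fun j => f (a j)) (fun j => f (a' j)) (fun j => hsm _) (fun j => hsm _)
      (fun j => hcs _) (fun j => hcs _) (fun j x hx => hf0 _ x ((hc _).2.trans_lt hx))
      (fun j x hx => hf0 _ x ((hc _).2.trans_lt hx)) _ (by positivity)
  filter_upwards [hev, LL_tendsto.eventually_ge_atTop 1] with z h1 h6
  intro E W a0 N α β hE hW hWE hS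
  obtain ⟨hS1, hS2⟩ := hS
  have hWr : (0 : ℝ) < W := by exact_mod_cast hW
  have hBE : 0 < BE E := BE_pos fun p hp => hE.1 p hp
  have hLB : 0 < LL z * BE E := by positivity
  have hNn : (0 : ℝ) ≤ (N : ℝ) / W := by positivity
  have hone : ∀ a ∈ A, ∀ a' ∈ A, ∑ n ∈ Icc 1 N, (if n ≡ a0 [MOD W] then (1 : ℝ) else 0) *
      ∏ j, (VVm E (RR z) (LL z) (f (a j)) ((α j : ℤ) * n + (β j : ℤ)) *
        VVm E (RR z) (LL z) (f (a' j)) ((α j : ℤ) * n + (β j : ℤ))) ≤
      ((N : ℝ) / W) * (1 / (LL z * BE E)) ^ K *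
        (∏ j, DD (f (a j)) (f (a' j)) + ε1 / ((A.card : ℝ) ^ 2 + 1)) + 2 * Real.exp (2 * LL z) := by
    intro a ha a' ha'
    have hsum : ∑ j, c (a j) + ∑ j, c (a' j) ≤ 2 := by
      have := hA a ha
      have := hA a' ha'
      linarith
    have k1 := sum1N N W a0 hW (fun j => f (a j)) (fun j => f (a' j)) (LL z) (by linarith)
      (fun j => c (a j)) (fun j => c (a' j)) (fun j x => hf1 _ x) (fun j x => hf1 _ x)
      (fun j x hx => hf0 _ x hx) (fun j x hx => hf0 _ x hx) (fun _ => E) (RR z) α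
      (fun j => (β j : ℤ)) (fun _ p hp h h' => h (hWE p hp h'))
      (fun j p hp h h' => h (hS1 j p hp h'))
      (by
        intro i j hij p hp hpE _ n hh
        apply hS2 j i hij.symm p hp hpE
        have h7 := dvd_sub (hh.1.mul_left (α j : ℤ)) (hh.2.mul_left (α i : ℤ))
        have h8 : (α j : ℤ) * ((α i : ℤ) * n + β i) - (α i : ℤ) * ((α j : ℤ) * n + β j) =
          (α j : ℤ) * β i - (α i : ℤ) * β j := by ring
        rwa [h8] at h7)
    have k2 := h1 a ha a' ha' E (fun p _ => 1 / (p : ℝ)) hE (fun _ p _ => w_one p)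
    have k3 : ∏ _j : Fin K, (LL z * BE E) = (LL z * BE E) ^ K := by
      rw [Finset.prod_const, Finset.card_univ, Fintype.card_fin]
    rw [k3] at k2
    have k4 := (abs_le.1 k1).2
    have k5 := (abs_le.1 k2).2
    set SS := sieveSum K (fun j => f (a j)) (fun j => f (a' j)) (LL z) (fun _ => E)
      (fun p _ => 1 / (p : ℝ)) (RR z)
    have k6 : SS ≤ (1 / (LL z * BE E)) ^ K *
        (∏ j, DD (f (a j)) (f (a' j)) + ε1 / ((A.card : ℝ) ^ 2 + 1)) := by
      rw [one_div, inv_pow, ← div_eq_inv_mul, le_div_iff₀ (by positivity)]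
      linarith
    have k7 : ((N : ℝ) / W) * SS ≤ ((N : ℝ) / W) * ((1 / (LL z * BE E)) ^ K *
        (∏ j, DD (f (a j)) (f (a' j)) + ε1 / ((A.card : ℝ) ^ 2 + 1))) :=
      mul_le_mul_of_nonneg_left k6 hNn
    have k8 : Real.exp (LL z * (∑ j, c (a j) + ∑ j, c (a' j))) ≤ Real.exp (2 * LL z) := by
      apply Real.exp_le_exp.2
      nlinarith
    have k9 := Real.exp_pos (2 * LL z)
    rw [← mul_assoc] at k7
    linarith
  have e0 : ∑ n ∈ (Icc 1 N).filter (fun n => n ≡ a0 [MOD W]),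
        sqw E z f A (fun j => (α j : ℤ) * (n : ℤ) + (β j : ℤ)) ^ 2 =
      ∑ a ∈ A, ∑ a' ∈ A, ∑ n ∈ Icc 1 N, (if n ≡ a0 [MOD W] then (1 : ℝ) else 0) *
      ∏ j, (VVm E (RR z) (LL z) (f (a j)) ((α j : ℤ) * n + (β j : ℤ)) *
        VVm E (RR z) (LL z) (f (a' j)) ((α j : ℤ) * n + (β j : ℤ))) := by
    rw [Finset.sum_filter]
    have e1 : ∀ n ∈ Icc 1 N, (if n ≡ a0 [MOD W] then
        sqw E z f A (fun j => (α j : ℤ) * (n : ℤ) + (β j : ℤ)) ^ 2 else 0) =
        ∑ a ∈ A, ∑ a' ∈ A, (if n ≡ a0 [MOD W] then (1 : ℝ) else 0) *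
      ∏ j, (VVm E (RR z) (LL z) (f (a j)) ((α j : ℤ) * n + (β j : ℤ)) *
        VVm E (RR z) (LL z) (f (a' j)) ((α j : ℤ) * n + (β j : ℤ))) := by
      intro n _
      rw [sqw_sq]
      split_ifs
      · simp only [one_mul]
      · simp only [zero_mul, Finset.sum_const_zero]
    rw [Finset.sum_congr rfl e1, Finset.sum_comm]
    refine Finset.sum_congr rfl fun a _ => ?_
    rw [Finset.sum_comm]
  rw [e0]
  refine (Finset.sum_le_sum fun a ha => Finset.sum_le_sum fun a' ha' => hone a ha a' ha').trans ?_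
  simp_rw [Finset.sum_add_distrib, ← Finset.mul_sum, Finset.sum_add_distrib, Finset.sum_const,
    nsmul_eq_mul]
  have hfin : ((A.card : ℝ) * ((A.card : ℝ) * (ε1 / ((A.card : ℝ) ^ 2 + 1)))) ≤ ε1 := by
    have : (A.card : ℝ) * ((A.card : ℝ) * (ε1 / ((A.card : ℝ) ^ 2 + 1))) =
        ((A.card : ℝ) ^ 2 / ((A.card : ℝ) ^ 2 + 1)) * ε1 := by ring
    rw [this]
    have h7 : (A.card : ℝ) ^ 2 / ((A.card : ℝ) ^ 2 + 1) ≤ 1 := by
      rw [div_le_one (by positivity)]; linarith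
    nlinarith
  have hcoef : 0 ≤ ((N : ℝ) / W) * (1 / (LL z * BE E)) ^ K := by positivity
  have : ((N : ℝ) / W) * (1 / (LL z * BE E)) ^ K *
      (∑ a ∈ A, ∑ a' ∈ A, ∏ j, DD (f (a j)) (f (a' j)) +
        (A.card : ℝ) * ((A.card : ℝ) * (ε1 / ((A.card : ℝ) ^ 2 + 1)))) ≤
      ((N : ℝ) / W) * (1 / (LL z * BE E)) ^ K * (II f A + ε1) := by
    apply mul_le_mul_of_nonneg_left _ hcoef
    unfold II
    linarith
  calc _ = ((N : ℝ) / W) * (1 / (LL z * BE E)) ^ K *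
      (∑ a ∈ A, ∑ a' ∈ A, ∏ j, DD (f (a j)) (f (a' j)) +
        (A.card : ℝ) * ((A.card : ℝ) * (ε1 / ((A.card : ℝ) ^ 2 + 1)))) +
          (A.card : ℝ) ^ 2 * (2 * Real.exp (2 * LL z)) := by ring
    _ ≤ _ := by linarith

end Pool.Agent.L7h32.UM
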