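import Mathlib
import Pool.Agent.L7h28.UM.Stm2
import Pool.Agent.L7h32.UM.Mer
import Pool.Agent.L7h32.UM.Easy

set_option autoImplicit false

/-! The primes of the sifting set which do not divide the big modulus, and the pigeonhole step for
systems of any size. -/

open Finset Filter
open scoped ContDiff

namespace Pool.Agent.L7h32.UM

open Pool.Agent.L7h28.UM Pool.Agent.H378R2
open Pool.Agent.Erdos456.Mert (PP)

theorem s_e3 : S_E3 := by
  intro b hb
  classical
  obtain ⟨C2, hC2⟩ := Pool.Agent.Erdos456.Mert.mertens_inv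
  have hlog := Real.tendsto_log_atTop
  have hb1 : (4 : ℝ) ≤ b := by exact_mod_cast hb
  refine ⟨|Real.log (4 * b) + 2 * C2 + 5| + 1 + 4, by positivity, ?_⟩
  filter_upwards [hlog.eventually_ge_atTop (10 : ℝ), (hlog.comp hlog).eventually_ge_atTop (Real.log 400),
    eventually_gt_atTop 0] with X h1 h2 hX0
  simp only [Function.comp] at h2
  intro S E hS hS1 hE
  obtain ⟨hE1, hE2, hE3⟩ := hE
  have hl : Real.log (X ^ 400) = 400 * Real.log X := by
    rw [Real.log_pow]
    norm_num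
  rw [hl] at hE2 hE3
  obtain ⟨P, hP⟩ : ∃ P : Finset ℕ, P = (Icc 1 ⌊Real.log X⌋₊).filter (fun p => p.Prime ∧ p ∉ S) :=
    ⟨_, rfl⟩
  have hPp : ∀ p ∈ P, p.Prime := by
    intro p hp
    rw [hP, Finset.mem_filter] at hp
    exact hp.2.1
  have hWX : WX X S = ∏ p ∈ P, p := by
    unfold WX
    rw [hP]
  have hlX : (1 : ℝ) ≤ 400 * Real.log X := by linarith
  have hPE : P ⊆ E := by
    intro p hp
    apply hE2 p (hPp p hp)
    rw [hP, Finset.mem_filter, Finset.mem_Icc] at hp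
    have h3 : (p : ℝ) ≤ ⌊Real.log X⌋₊ := by exact_mod_cast hp.1.2
    have h4 : (⌊Real.log X⌋₊ : ℝ) ≤ Real.log X := Nat.floor_le (by linarith)
    calc (p : ℝ) ≤ 400 * Real.log X := by linarith
      _ = (400 * Real.log X) ^ 1 := (pow_one _).symm
      _ ≤ (400 * Real.log X) ^ b := pow_le_pow_right₀ hlX (by omega)
  have hEq : E.filter (fun p => ¬ p ∣ WX X S) ⊆ E \ P := by
    intro p hp
    rw [Finset.mem_filter] at hp
    rw [Finset.mem_sdiff]
    refine ⟨hp.1, fun h => hp.2 ?_⟩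
    rw [hWX]
    exact Finset.dvd_prod_of_mem _ h
  refine (Finset.sum_le_sum_of_subset_of_nonneg hEq (fun p _ _ => by positivity)).trans ?_
  -- the sum
  obtain ⟨M, hM⟩ : ∃ M : ℕ, M = ⌊Real.log X⌋₊ := ⟨_, rfl⟩
  obtain ⟨N, hN⟩ : ∃ N : ℕ, N = ⌊(400 * Real.log X) ^ b⌋₊ := ⟨_, rfl⟩
  have hM1 : (M : ℝ) ≤ Real.log X := by
    rw [hM]
    exact Nat.floor_le (by linarith)
  have hM2 : Real.log X < M + 1 := by
    rw [hM]
    exact Nat.lt_floor_add_one _
  have hpow : 400 * Real.log X ≤ (400 * Real.log X) ^ b := by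
    calc 400 * Real.log X = (400 * Real.log X) ^ 1 := (pow_one _).symm
      _ ≤ (400 * Real.log X) ^ b := pow_le_pow_right₀ hlX (by omega)
  have hMN : M ≤ N := by
    rw [hN]
    apply Nat.le_floor
    linarith
  have hM3 : (9 : ℝ) ≤ M := by linarith
  have hM3' : 3 ≤ M := by
    have : (3 : ℝ) ≤ M := by linarith
    exact_mod_cast this
  have hN1 : (N : ℝ) ≤ (400 * Real.log X) ^ b := by
    rw [hN]
    exact Nat.floor_le (by positivity)
  have hMNr : (M : ℝ) ≤ N := by exact_mod_cast hMN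
  obtain ⟨U, hU⟩ : ∃ U : Finset ℕ, U = E.filter (fun p : ℕ => (400 * Real.log X) ^ b < (p : ℝ)) :=
    ⟨_, rfl⟩
  have h4b : (400 * Real.log X) ^ 4 ≤ (400 * Real.log X) ^ b := pow_le_pow_right₀ hlX hb
  obtain ⟨-, f2⟩ := few (400 * Real.log X) hlX U (by
    intro p hp
    rw [hU, Finset.mem_filter] at hp
    linarith) (by
    rw [hU]
    have h5 : 0 ≤ (400 * Real.log X) ^ 2 := by positivity
    linarith)
  have hsub : E \ P ⊆ (PP N \ PP M) ∪ (S ∪ U) := by
    intro p hp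
    rw [Finset.mem_sdiff] at hp
    have hpp := hE1 p hp.1
    rw [Finset.mem_union, Finset.mem_union, Finset.mem_sdiff, mem_PP', mem_PP']
    by_cases hpS : p ∈ S
    · exact Or.inr (Or.inl hpS)
    · rcases le_or_gt (p : ℝ) ((400 * Real.log X) ^ b) with h5 | h5
      · left
        refine ⟨⟨?_, hpp⟩, ?_⟩
        · rw [hN]
          exact Nat.le_floor h5
        · rintro ⟨h6, -⟩
          apply hp.2
          rw [hP, Finset.mem_filter, Finset.mem_Icc, ← hM]
          exact ⟨⟨hpp.one_lt.le, h6⟩, hpp, hpS⟩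
      · right
        right
        rw [hU, Finset.mem_filter]
        exact ⟨hp.1, h5⟩
  have hφ : ∀ p : ℕ, 0 ≤ (1 : ℝ) / p := fun p => by positivity
  have hs1 : ∑ p ∈ E \ P, (1 : ℝ) / p ≤ ∑ p ∈ PP N \ PP M, (1 : ℝ) / p +
      (∑ p ∈ S, (1 : ℝ) / p + ∑ p ∈ U, (1 : ℝ) / p) := by
    refine (Finset.sum_le_sum_of_subset_of_nonneg hsub (fun p _ _ => hφ p)).trans ?_
    have h5 := Finset.sum_union_inter (s₁ := PP N \ PP M) (s₂ := S ∪ U) (f := fun p : ℕ => (1 : ℝ) / p)
    have h6 : 0 ≤ ∑ p ∈ (PP N \ PP M) ∩ (S ∪ U), (1 : ℝ) / p := Finset.sum_nonneg fun p _ => hφ p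
    have h7 := Finset.sum_union_inter (s₁ := S) (s₂ := U) (f := fun p : ℕ => (1 : ℝ) / p)
    have h8 : 0 ≤ ∑ p ∈ S ∩ U, (1 : ℝ) / p := Finset.sum_nonneg fun p _ => hφ p
    linarith
  have hsubMN : PP M ⊆ PP N := by
    intro p hp
    rw [mem_PP'] at hp ⊢
    exact ⟨hp.1.trans hMN, hp.2⟩
  have hs2 := Finset.sum_sdiff hsubMN (f := fun p : ℕ => (1 : ℝ) / p)
  have hm1 := (abs_le.1 (hC2 N (by omega))).2
  have hm2 := (abs_le.1 (hC2 M hM3')).1
  have hPPN : PP N = (Finset.Icc 1 N).filter Nat.Prime := rfl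
  have hPPM : PP M = (Finset.Icc 1 M).filter Nat.Prime := rfl
  rw [← hPPN] at hm1
  rw [← hPPM] at hm2
  -- log log N - log log M
  have hlM : Real.log (Real.log X) / 2 ≤ Real.log M := by
    have h5 : Real.log X ≤ (M : ℝ) ^ 2 := by nlinarith
    have h6 := Real.log_le_log (by linarith) h5
    rw [Real.log_pow] at h6
    push_cast at h6
    linarith
  have h400 : 0 < Real.log 400 := Real.log_pos (by norm_num)
  have hlN : Real.log N ≤ b * (2 * Real.log (Real.log X)) := by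
    have h5 := Real.log_le_log (by linarith) hN1
    rw [Real.log_pow, Real.log_mul (by norm_num) (by linarith)] at h5
    refine h5.trans ?_
    apply mul_le_mul_of_nonneg_left _ (by linarith)
    linarith
  have hlM0 : 0 < Real.log M := Real.log_pos (by linarith)
  have hlN0 : 0 < Real.log N := Real.log_pos (by linarith)
  have hfin : Real.log (Real.log N) ≤ Real.log (4 * b) + Real.log (Real.log M) := by
    rw [← Real.log_mul (by linarith) hlM0.ne']
    apply Real.log_le_log hlN0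
    nlinarith
  have habs := le_abs_self (Real.log (4 * b) + 2 * C2 + 5)
  linarith

theorem s_pgj : S_PGJ := by
  intro K1 hK1
  classical
  obtain ⟨K, hK⟩ := s_pg K1 hK1
  refine ⟨K, ?_⟩
  intro k q₁ α hq hcard
  obtain ⟨s, hs, hs2⟩ := Finset.exists_subset_card_eq hcard
  have hmem : ∀ j : Fin K, 1 ≤ α (s.orderEmbOfFin hs2 j) ∧ ¬ q₁ ∣ α (s.orderEmbOfFin hs2 j) := by
    intro j
    have h1 := hs (Finset.orderEmbOfFin_mem s hs2 j)
    exact (Finset.mem_filter.1 h1).2
  obtain ⟨ι, S, h1, h2, h3⟩ := hK q₁ (fun j => α (s.orderEmbOfFin hs2 j)) hq hmem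
  exact ⟨ι.trans (s.orderEmbOfFin hs2).toEmbedding, S, h1, h2, h3⟩

end Pool.Agent.L7h32.UM
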