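import Mathlib
import Pool.Agent.L7h28.UM.Stm3
import Pool.Agent.L7h80.UM.SP
import Pool.Agent.Y835.SC.Page
import Pool.Agent.H262R3.Lk.SWQ
import Pool.Agent.L7h32.UM.LinQ

/-!
A Linnik type lower bound for the primes in residue classes, for all moduli which are not divisible
by one exceptional modulus, which is larger than every power of the logarithm.
-/

set_option autoImplicit false

namespace Pool.Agent.L7h32.UM.P2

section

open Finset Pool.Agent.H262R3.Lk Pool.Agent.W69.MH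

theorem log_pow_le (B : ℕ) : ∃ z0 : ℕ, ∀ z : ℕ, z0 ≤ z → (Real.log z) ^ B ≤ (z : ℝ) := by
  have h := (isLittleO_log_rpow_atTop (r := 1 / (B + 1 : ℝ)) (by positivity)).bound one_pos
  have h2 := h.and (Filter.eventually_ge_atTop (1 : ℝ))
  obtain ⟨x0, hx0⟩ := Filter.eventually_atTop.1 h2
  refine ⟨⌈x0⌉₊, fun z hz => ?_⟩
  have hz' : x0 ≤ z := (Nat.le_ceil _).trans (by exact_mod_cast hz)
  obtain ⟨h3, h4⟩ := hx0 z hz'
  have hlog : 0 ≤ Real.log z := Real.log_nonneg h4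
  rw [one_mul, Real.norm_of_nonneg hlog, Real.norm_of_nonneg (by positivity)] at h3
  have hz0 : (0 : ℝ) ≤ z := by positivity
  calc (Real.log z) ^ B ≤ ((z : ℝ) ^ (1 / (B + 1 : ℝ))) ^ B := pow_le_pow_left₀ hlog h3 B
    _ = (z : ℝ) ^ ((1 / (B + 1 : ℝ)) * B) := by rw [← Real.rpow_natCast, ← Real.rpow_mul hz0]
    _ ≤ (z : ℝ) ^ (1 : ℝ) := by
        apply Real.rpow_le_rpow_of_exponent_le h4
        rw [one_div, inv_mul_le_iff₀ (by positivity)]
        linarith
    _ = z := Real.rpow_one _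

/-- the Linnik type bound -/
theorem pageQ : ∃ (K : ℕ) (c : ℝ) (z1 : ℕ → ℕ), 1 ≤ K ∧ 0 < c ∧ ∃ z0 : ℕ, ∀ z : ℕ, z0 ≤ z →
    ∃ q₁ : ℕ, 2 ≤ q₁ ∧ (∀ B : ℕ, z1 B ≤ z → (Real.log z) ^ B ≤ (q₁ : ℝ)) ∧
    ∀ q b : ℕ, 0 < q → q ^ 16 ≤ z → ¬ q₁ ∣ q → b.Coprime q →
    c / (q.totient : ℝ) ≤
      ∑ p ∈ (Ioc z (z ^ K)).filter (fun p => p.Prime ∧ p ≡ b [MOD q]), (1 : ℝ) / p := by
  have hSUM := Pool.Agent.W933.MHSum.sum_
  have hFL := Pool.Agent.W333.MH.fl
  have hDIFF := Pool.Agent.W505.MH.diff hFL hSUM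
  have hA0 := Pool.Agent.W505.MH.a0 hFL hSUM
  have hCLS := Pool.Agent.W193.MH.Cls.cls hSUM
  have hB0 := Pool.Agent.H262R3.Lk.b0 Pool.Agent.W505.MH.bt hSUM
  have hB2 := Pool.Agent.W440.MH.b2 hSUM
  have hALG := Pool.Agent.H262R3.Lk.alg hSUM
  have hLIN := linQ hSUM hDIFF hA0 hB0 hB2 hALG Pool.Agent.W215.MH.eul hCLS
    Pool.Agent.W701.MH.abs_
  have hTAIL := Pool.Agent.W803.MH.tail Pool.Agent.W505.MH.bt hSUM
  obtain ⟨A, c, lam, hA, hc, hlam, hlam2, z1, h1⟩ := hLIN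
  obtain ⟨K, z2, hK, h2⟩ := hTAIL A (c / 2) hA (by positivity)
  have hK0 : (0 : ℝ) < (K : ℝ) := by exact_mod_cast hK
  choose z3 hz3 using swq
  choose z5 hz5 using log_pow_le
  refine ⟨K, c / (2 * (K : ℝ) ^ 3), fun B => max (z3 B) (z5 B), hK, by positivity,
    max (max z1 z2) 3, ?_⟩
  intro z hz
  have hz1 : z1 ≤ z := le_trans (le_trans (le_max_left _ _) (le_max_left _ _)) hz
  have hz2 : z2 ≤ z := le_trans (le_trans (le_max_right _ _) (le_max_left _ _)) hz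
  have hz4 : 3 ≤ z := le_trans (le_max_right _ _) hz
  have h8 : ∀ q : ℕ, 0 < q → q ^ 16 ≤ z → q ^ 8 ≤ z := fun q hq h =>
    (Nat.pow_le_pow_right hq (by norm_num)).trans h
  -- it is enough that no real character is exceptional
  have hmain : ∀ q b : ℕ, 0 < q → q ^ 16 ≤ z → b.Coprime q →
      (∀ χ : DirichletCharacter ℂ q, χ ≠ 1 → χ ^ 2 = 1 →
        lam ≤ ‖Lj z χ 0 (1 / (A * Real.log z))‖) →
      c / (2 * (K : ℝ) ^ 3) / (q.totient : ℝ) ≤
      ∑ p ∈ (Ioc z (z ^ K)).filter (fun p => p.Prime ∧ p ≡ b [MOD q]), (1 : ℝ) / p := by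
    intro q b hqpos hq hb hreal
    have hlog : (1 : ℝ) ≤ Real.log z := by
      rw [Real.le_log_iff_exp_le (by exact_mod_cast (by omega : 0 < z))]
      have h5 : Real.exp 1 < 2.7182818286 := Real.exp_one_lt_d9
      have h6 : (3 : ℝ) ≤ (z : ℝ) := by exact_mod_cast hz4
      linarith
    haveI : NeZero q := ⟨hqpos.ne'⟩
    have hlow := (h1 z q hz1 (h8 q hqpos hq)).1 b hb hreal
    have hup := h2 z q b hz2 hqpos (h8 q hqpos hq) hb
    have hphi : (0 : ℝ) < (q.totient : ℝ) := by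
      exact_mod_cast Nat.totient_pos.2 hqpos
    have hL3 : (0 : ℝ) < (Real.log z) ^ 3 := by positivity
    obtain ⟨S, hS⟩ : ∃ S : ℝ, S = ∑ p ∈ (Ioc z (z ^ K)).filter
      (fun p => p.Prime ∧ p ≡ b [MOD q]), (1 : ℝ) / p := ⟨_, rfl⟩
    rw [← hS] at hup ⊢
    have h5 : c * (Real.log z) ^ 3 / (q.totient : ℝ) ≤
        c / 2 * (Real.log z) ^ 3 / (q.totient : ℝ) + (K : ℝ) ^ 3 * (Real.log z) ^ 3 * S :=
      le_trans hlow hup
    have h6 : (c / 2 / (q.totient : ℝ)) * (Real.log z) ^ 3 ≤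
        ((K : ℝ) ^ 3 * S) * (Real.log z) ^ 3 := by
      have e1 : c * (Real.log z) ^ 3 / (q.totient : ℝ) =
          2 * ((c / 2 / (q.totient : ℝ)) * (Real.log z) ^ 3) := by
        field_simp
      have e2 : c / 2 * (Real.log z) ^ 3 / (q.totient : ℝ) =
          (c / 2 / (q.totient : ℝ)) * (Real.log z) ^ 3 := by
        field_simp
      rw [e1, e2] at h5
      nlinarith
    have h7 : c / 2 / (q.totient : ℝ) ≤ (K : ℝ) ^ 3 * S :=
      le_of_mul_le_mul_right h6 hL3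
    have hK3 : (0 : ℝ) < (K : ℝ) ^ 3 := by positivity
    have e3 : c / (2 * (K : ℝ) ^ 3) / (q.totient : ℝ) =
        (c / 2 / (q.totient : ℝ)) / (K : ℝ) ^ 3 := by
      field_simp
    rw [e3, div_le_iff₀ hK3]
    linarith
  by_cases hex : ∃ (q₀ : ℕ) (χ₀ : DirichletCharacter ℂ q₀), 0 < q₀ ∧ q₀ ^ 16 ≤ z ∧ χ₀ ≠ 1 ∧
      χ₀ ^ 2 = 1 ∧ ‖Lj z χ₀ 0 (1 / (A * Real.log z))‖ < lam
  · obtain ⟨q₀, χ₀, hq₀, hq₀z, hχ₀, hχ₀2, hL₀⟩ := hex
    haveI : NeZero q₀ := ⟨hq₀.ne'⟩
    have hc0 : χ₀.conductor ≠ 0 := χ₀.conductor_ne_zero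
    have hc1 : χ₀.conductor ≠ 1 := fun h => hχ₀ (χ₀.eq_one_iff_conductor_eq_one.2 h)
    refine ⟨χ₀.conductor, by omega, ?_, fun q b hq hqz hndvd hb => hmain q b hq hqz hb ?_⟩
    · intro B hB
      by_contra hcon
      push Not at hcon
      have hzlog : (1 : ℝ) ≤ Real.log z := by
        rw [Real.le_log_iff_exp_le (by exact_mod_cast (by omega : 0 < z))]
        have h5 : Real.exp 1 < 2.7182818286 := Real.exp_one_lt_d9
        have h6 : (3 : ℝ) ≤ (z : ℝ) := by exact_mod_cast hz4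
        linarith
      have h3 := hz3 B z ((le_max_left _ _).trans hB) χ₀.conductor (by omega) hcon.le
        χ₀.primitiveCharacter χ₀.primitiveCharacter_isPrimitive (1 / (A * Real.log z))
        (by positivity) (by
          rw [div_le_one (by positivity)]
          exact one_le_mul_of_one_le_of_one_le hA hzlog)
      have hq₀z' : q₀ ≤ z := (Nat.le_self_pow (by norm_num) _).trans hq₀z
      rw [← Pool.Agent.Y835.SC.Lj_lift χ₀.conductor_dvd_level hq₀z',
        DirichletCharacter.changeLevel_primitiveCharacter] at h3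
      linarith
    intro χ hχ hχ2
    by_contra hcon
    push Not at hcon
    haveI : NeZero q := ⟨hq.ne'⟩
    have hm0 : 0 < q₀ * q := Nat.mul_pos hq₀ hq
    haveI : NeZero (q₀ * q) := ⟨hm0.ne'⟩
    have hm8 : (q₀ * q) ^ 8 ≤ z := by
      have e1 : ((q₀ * q) ^ 8) ^ 2 ≤ z ^ 2 := by
        calc ((q₀ * q) ^ 8) ^ 2 = q₀ ^ 16 * q ^ 16 := by rw [← pow_mul, mul_pow]
          _ ≤ z * z := Nat.mul_le_mul hq₀z hqz
          _ = z ^ 2 := by ring
      exact (Nat.pow_le_pow_iff_left (by norm_num)).1 e1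
    have hmz : q₀ * q ≤ z := (Nat.le_self_pow (by norm_num) _).trans hm8
    have h3 := (h1 z (q₀ * q) hz1 hm8).2
      (DirichletCharacter.changeLevel (dvd_mul_right q₀ q) χ₀)
      (DirichletCharacter.changeLevel (dvd_mul_left q q₀) χ)
      (by rw [← map_pow, hχ₀2, map_one]) (by rw [← map_pow, hχ2, map_one]) (by
        intro h
        have h4 : DirichletCharacter.changeLevel (dvd_mul_right q₀ q) χ₀ =
            DirichletCharacter.changeLevel (dvd_mul_left q q₀) χ := by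
          have h5 : DirichletCharacter.changeLevel (dvd_mul_left q q₀) χ *
              DirichletCharacter.changeLevel (dvd_mul_left q q₀) χ = 1 := by
            rw [← map_mul, ← sq, hχ2, map_one]
          exact mul_right_cancel (h.trans h5.symm)
        have h5 := congrArg DirichletCharacter.conductor h4
        rw [DirichletCharacter.conductor_changeLevel, DirichletCharacter.conductor_changeLevel] at h5
        exact hndvd (h5 ▸ χ.conductor_dvd_level))
    rw [Pool.Agent.Y835.SC.Lj_lift _ hmz, Pool.Agent.Y835.SC.Lj_lift _ hmz] at h3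
    rcases h3 with h3 | h3
    · linarith
    · linarith
  · push Not at hex
    refine ⟨z + 2, by omega, ?_, fun q b hq hqz _ hb => hmain q b hq hqz hb ?_⟩
    · intro B hB
      have h3 := hz5 B z ((le_max_right _ _).trans hB)
      push_cast
      linarith
    intro χ hχ hχ2
    exact hex q χ hq hqz hχ hχ2

end

section

open Finset Filter Pool.Agent.H378R2 Pool.Agent.L7h28.UM


theorem s_P2 : S_P2 := by
  obtain ⟨K, c, z1, hK, hc, z0, hpage⟩ := pageQ
  have hK0 : (0 : ℝ) < K := by exact_mod_cast hK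
  choose! e he using hpage
  refine ⟨3 * K + 2, c / (8 * K), fun z => e ⌈z ^ 2⌉₊, by omega, by positivity, ?_, ?_⟩
  · intro B
    filter_upwards [eventually_ge_atTop (max 3 (max (z0 : ℝ) (z1 B : ℝ)))] with z hz
    have hz3 : 3 ≤ z := (le_max_left _ _).trans hz
    have hz0 : 0 < z := by linarith
    have hZ : z ^ 2 ≤ (⌈z ^ 2⌉₊ : ℝ) := Nat.le_ceil _
    have hzZ : z ≤ (⌈z ^ 2⌉₊ : ℝ) := by nlinarith
    have h1 : z0 ≤ ⌈z ^ 2⌉₊ := by
      have h2 : (z0 : ℝ) ≤ z := (le_max_left _ _).trans ((le_max_right _ _).trans hz)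
      exact_mod_cast h2.trans hzZ
    have h2 : z1 B ≤ ⌈z ^ 2⌉₊ := by
      have h2 : (z1 B : ℝ) ≤ z := (le_max_right _ _).trans ((le_max_right _ _).trans hz)
      exact_mod_cast h2.trans hzZ
    refine le_trans ?_ ((he _ h1).2.1 B h2)
    exact pow_le_pow_left₀ (Real.log_nonneg (by linarith)) (Real.log_le_log hz0 hzZ) B
  filter_upwards [eventually_ge_atTop (max 3 (z0 : ℝ))] with z hz
  have hz3 : 3 ≤ z := (le_max_left _ _).trans hz
  have hz0 : 0 < z := by linarith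
  set Z : ℕ := ⌈z ^ 2⌉₊ with hZdef
  have hZ : z ^ 2 ≤ Z := Nat.le_ceil _
  have hZz0 : z0 ≤ Z := by
    have h1 : (z0 : ℝ) ≤ Z := by
      have h2 : (z0 : ℝ) ≤ z := (le_max_right _ _).trans hz
      nlinarith
    exact_mod_cast h1
  have hZ3 : (Z : ℝ) ≤ z ^ 3 := by
    have h1 : (Z : ℝ) < z ^ 2 + 1 := Nat.ceil_lt_add_one (by positivity)
    nlinarith [sq_nonneg z]
  obtain ⟨hq₁, -, hq⟩ := he Z hZz0
  refine ⟨hq₁, ?_⟩
  intro k w α Q b hw hα hQ hb
  set L := Real.log z with hL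
  have hL1 : 1 ≤ L := by
    rw [hL, Real.le_log_iff_exp_le hz0]
    linarith [Real.exp_one_lt_d9]
  set T : ℕ := ⌈6 * K * L⌉₊ with hT
  have hT1 : 6 * K * L ≤ T := Nat.le_ceil _
  have hT2 : (T : ℝ) < 6 * K * L + 1 := Nat.ceil_lt_add_one (by positivity)
  have hK1 : (1 : ℝ) ≤ K := by exact_mod_cast hK
  have hKL : 1 ≤ K * L := by nlinarith
  have hTle : ((T + 1 : ℕ) : ℝ) ≤ 8 * (K * L) := by
    push_cast
    linarith
  have hZpos : (0 : ℝ) < Z := lt_of_lt_of_le (by positivity) hZ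
  have hlogZ : 2 * Real.log ((Z : ℝ) ^ K) ≤ T := by
    rw [Real.log_pow]
    have h1 : Real.log Z ≤ 3 * L := by
      have h2 := Real.log_le_log hZpos hZ3
      rw [Real.log_pow] at h2
      exact_mod_cast h2
    have h3 : (K : ℝ) * Real.log Z ≤ K * (3 * L) := mul_le_mul_of_nonneg_left h1 hK0.le
    linarith
  have hone : ∀ i, c * L ≤ ∑ t ∈ range (T + 1),
      CS (α i * (z * Real.exp ((t : ℝ) / 2))) (Q i) (b i) * ((Q i).totient : ℝ) /
        (α i * (z * Real.exp ((t : ℝ) / 2))) := by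
    intro i
    apply Pool.Agent.L7h80.UM.one_prog hz3 hZ hlogZ (hα i).1 _ _ (hQ i).1
    · refine (hα i).2.trans ?_
      apply Real.rpow_le_rpow_of_exponent_le (by linarith) (by norm_num)
    · apply hq (Q i) (b i) (hQ i).1 _ (hQ i).2.2 (hb i)
      have h1 : ((Q i : ℝ)) ^ 16 ≤ Z := by
        calc (Q i : ℝ) ^ 16 ≤ (z ^ (1 / 100 : ℝ)) ^ 16 :=
              pow_le_pow_left₀ (Nat.cast_nonneg _) (hQ i).2.1 16
          _ = z ^ (16 / 100 : ℝ) := by
              rw [← Real.rpow_natCast, ← Real.rpow_mul hz0.le]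
              norm_num
          _ ≤ z ^ (2 : ℝ) := Real.rpow_le_rpow_of_exponent_le (by linarith) (by norm_num)
          _ = z ^ 2 := by norm_num
          _ ≤ Z := hZ
      exact_mod_cast h1
  -- the average over the scales
  have hav : c * L * ∑ i, w i ≤ ∑ t ∈ range (T + 1), ∑ i, w i *
      (CS (α i * (z * Real.exp ((t : ℝ) / 2))) (Q i) (b i) * ((Q i).totient : ℝ) /
        (α i * (z * Real.exp ((t : ℝ) / 2)))) := by
    rw [sum_comm, mul_sum]
    apply sum_le_sum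
    intro i _
    rw [← mul_sum, mul_comm]
    exact mul_le_mul_of_nonneg_left (hone i) (hw i)
  have hex : ∃ t ∈ range (T + 1), c / (8 * K) * ∑ i, w i ≤ ∑ i, w i *
      (CS (α i * (z * Real.exp ((t : ℝ) / 2))) (Q i) (b i) * ((Q i).totient : ℝ) /
        (α i * (z * Real.exp ((t : ℝ) / 2)))) := by
    apply exists_le_of_sum_le (nonempty_range_iff.2 (by omega))
    refine le_trans ?_ hav
    rw [sum_const, nsmul_eq_mul, card_range]
    have hw0 : 0 ≤ ∑ i, w i := sum_nonneg fun i _ => hw i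
    have h1 : 0 ≤ c / (8 * K) * ∑ i, w i := by positivity
    calc ((T + 1 : ℕ) : ℝ) * (c / (8 * K) * ∑ i, w i) ≤ (8 * (K * L)) * (c / (8 * K) * ∑ i, w i) :=
          mul_le_mul_of_nonneg_right hTle h1
      _ = c * L * ∑ i, w i := by
          field_simp
  obtain ⟨t, ht, hle⟩ := hex
  refine ⟨z * Real.exp ((t : ℝ) / 2), ?_, ?_, hle⟩
  · have h1 : 1 ≤ Real.exp ((t : ℝ) / 2) := Real.one_le_exp (by positivity)
    nlinarith
  · have h2 : (t : ℝ) ≤ T := by
      have := mem_range.1 ht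
      exact_mod_cast (by omega : t ≤ T)
    have h3 : Real.exp ((t : ℝ) / 2) ≤ Real.exp ((3 * K + 1 : ℝ) * L) := by
      apply Real.exp_le_exp.2
      linarith
    have h4 : Real.exp ((3 * K + 1 : ℝ) * L) = z ^ (3 * K + 1) := by
      rw [hL, mul_comm, Real.exp_mul, Real.exp_log hz0]
      rw [← Real.rpow_natCast]
      push_cast
      rfl
    rw [h4] at h3
    calc z * Real.exp ((t : ℝ) / 2) ≤ z * z ^ (3 * K + 1) := mul_le_mul_of_nonneg_left h3 hz0.le
      _ = z ^ (3 * K + 2) := by ring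

end

end Pool.Agent.L7h32.UM.P2

namespace Pool.Agent.L7h32.UM

/-- (P2) -/
theorem s_p2 : Pool.Agent.L7h28.UM.S_P2 := P2.s_P2

end Pool.Agent.L7h32.UM

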