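import Mathlib
import Pool.Agent.L7h28.UM.Stm2
import Pool.Agent.L7h32.UM.S1

set_option autoImplicit false

/-! The values of the forms divisible by a given prime. -/

open Finset Filter
open scoped ContDiff

namespace Pool.Agent.L7h32.UM

open Pool.Agent.L7h28.UM Pool.Agent.H378R2

theorem lcm_prime_eq {a p : ℕ} (hp : p.Prime) :
    ((Nat.lcm a p : ℕ) : ℝ) = (a : ℝ) * (if p ∣ a then 1 else (p : ℝ)) := by
  by_cases h : p ∣ a
  · rw [if_pos h, mul_one, Nat.lcm_eq_left h]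
  · rw [if_neg h]
    have h1 : Nat.Coprime a p := ((Nat.Prime.coprime_iff_not_dvd hp).2 h).symm
    rw [h1.lcm_eq_mul]
    push_cast
    ring

open Classical in
theorem cnt_p {J : ℕ} (N W a : ℕ) (hW : 0 < W) (E : Finset ℕ) (R : ℕ) (c : Fin J → ℕ) (h : Fin J → ℕ)
    (hEW : ∀ p : ℕ, p.Prime → p ∉ E → ¬ p ∣ W) (hEc : ∀ j, ∀ p : ℕ, p.Prime → p ∉ E → ¬ p ∣ c j)
    (hres : ∀ i j, i ≠ j → ∀ p : ℕ, p.Prime → p ∉ E → ∀ n : ℕ,
      ¬ ((p : ℤ) ∣ (c i : ℤ) * n + h i ∧ (p : ℤ) ∣ (c j : ℤ) * n + h j))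
    (i : Fin J) (p : ℕ) (hp : p.Prime) (hpE : p ∉ E) (d e : Fin J → ℕ)
    (hd : ∀ j, d j ∈ adm E R) (he : ∀ j, e j ∈ adm E R) :
    |∑ n ∈ Icc 1 N, (if DC (fun j => (c j : ℤ) * n + h j) d e then
        (if n ≡ a [MOD W] ∧ p ∣ c i * n + h i then (1 : ℝ) else 0) else 0) -
      ((N : ℝ) / W) * (if PC d e ∧ ∀ j, j ≠ i → ¬ p ∣ Nat.lcm (d j) (e j) then
        ((∏ j, ∏ q ∈ (Nat.lcm (d j) (e j)).primeFactors, (1 : ℝ) / q) *
        (if p ∣ Nat.lcm (d i) (e i) then 1 else (1 : ℝ) / p)) else 0)| ≤ 1 := by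
  have hd0 : ∀ j, d j ≠ 0 := fun j => by have := (mem_adm.1 (hd j)).1.1; omega
  have he0 : ∀ j, e j ≠ 0 := fun j => by have := (mem_adm.1 (he j)).1.1; omega
  have hpint : ∀ n : ℕ, (p ∣ c i * n + h i ↔ (p : ℤ) ∣ (c i : ℤ) * n + h i) := by
    intro n
    rw [← Int.natCast_dvd_natCast]
    push_cast
    rfl
  by_cases hC : PC d e ∧ ∀ j, j ≠ i → ¬ p ∣ Nat.lcm (d j) (e j)
  · obtain ⟨hPC, hj⟩ := hC
    rw [if_pos ⟨hPC, hj⟩]
    set D : Fin J → ℕ := fun j => Nat.lcm (d j) (e j) with hD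
    have hD0 : ∀ j, D j ≠ 0 := fun j => Nat.lcm_ne_zero (hd0 j) (he0 j)
    have hDW : ∀ j, (D j).Coprime W := fun j => adm_lcm_coprime (hd j) (he j) hEW
    have hDc : ∀ j, (c j).Coprime (D j) := fun j => (adm_lcm_coprime (hd j) (he j) (hEc j)).symm
    have hDsq : ∀ j, Squarefree (D j) := fun j =>
      sqf_lcm (mem_adm.1 (hd j)).2.1 (mem_adm.1 (he j)).2.1
    set D' : Fin J → ℕ := fun j => if j = i then Nat.lcm (D j) p else D j with hD'
    have hD'i : D' i = Nat.lcm (D i) p := by simp [hD']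
    have hD'j : ∀ j, j ≠ i → D' j = D j := by
      intro j hj
      simp [hD', hj]
    have hD'0 : ∀ j, D' j ≠ 0 := by
      intro j
      by_cases hji : j = i
      · subst hji
        rw [hD'i]
        exact Nat.lcm_ne_zero (hD0 j) hp.ne_zero
      · rw [hD'j j hji]
        exact hD0 j
    have hcopl : ∀ m : ℕ, (D i).Coprime m → p.Coprime m → (Nat.lcm (D i) p).Coprime m := by
      intro m h1 h2
      exact Nat.Coprime.coprime_dvd_left (Nat.lcm_dvd_mul (D i) p) (Nat.Coprime.mul_left h1 h2)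
    have hD'W : ∀ j, (D' j).Coprime W := by
      intro j
      by_cases hji : j = i
      · subst hji
        rw [hD'i]
        exact hcopl W (hDW j) ((Nat.Prime.coprime_iff_not_dvd hp).2 (hEW p hp hpE))
      · rw [hD'j j hji]
        exact hDW j
    have hD'c : ∀ j, (c j).Coprime (D' j) := by
      intro j
      by_cases hji : j = i
      · subst hji
        rw [hD'i]
        exact (hcopl (c j) (hDc j).symm ((Nat.Prime.coprime_iff_not_dvd hp).2 (hEc j p hp hpE))).symm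
      · rw [hD'j j hji]
        exact hDc j
    have hD'p : Pairwise (fun a b => (D' a).Coprime (D' b)) := by
      intro a b hab
      by_cases ha : a = i
      · subst ha
        have hb : b ≠ a := fun hh => hab hh.symm
        show (D' a).Coprime (D' b)
        rw [hD'i, hD'j b hb]
        exact hcopl (D b) (hPC hab) ((Nat.Prime.coprime_iff_not_dvd hp).2 (hj b hb))
      · by_cases hb : b = i
        · subst hb
          show (D' a).Coprime (D' b)
          rw [hD'i, hD'j a ha]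
          exact (hcopl (D a) (hPC (Ne.symm hab)) ((Nat.Prime.coprime_iff_not_dvd hp).2 (hj a ha))).symm
        · show (D' a).Coprime (D' b)
          rw [hD'j a ha, hD'j b hb]
          exact hPC hab
    obtain ⟨b, hb⟩ := class_exists W a hW.ne' D' c (fun j => (h j : ℤ)) hD'0 hD'p hD'W hD'c
    have hprodpos : 0 < ∏ j, D' j := Finset.prod_pos fun j _ => Nat.pos_of_ne_zero (hD'0 j)
    have h2 := cls_count N (W * ∏ j, D' j) b (Nat.mul_pos hW hprodpos)
    have hiff : ∀ n : ℕ, ((DC (fun j => (c j : ℤ) * n + h j) d e ∧ (n ≡ a [MOD W] ∧ p ∣ c i * n + h i)) ↔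
        n ≡ b [MOD (W * ∏ j, D' j)]) := by
      intro n
      rw [← hb n]
      constructor
      · rintro ⟨k1, k2, k3⟩
        refine ⟨k2, fun j => ?_⟩
        by_cases hji : j = i
        · subst hji
          rw [hD'i]
          have k4 := k1 j
          have k5 := (hpint n).1 k3
          rw [Int.natCast_dvd] at k4 k5 ⊢
          exact Nat.lcm_dvd k4 k5
        · rw [hD'j j hji]
          exact k1 j
      · rintro ⟨k1, k2⟩
        refine ⟨fun j => ?_, k1, ?_⟩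
        · have k3 := k2 j
          by_cases hji : j = i
          · subst hji
            rw [hD'i] at k3
            exact (Int.natCast_dvd_natCast.2 (Nat.dvd_lcm_left (D j) p)).trans k3
          · rw [hD'j j hji] at k3
            exact k3
        · have k3 := k2 i
          rw [hD'i] at k3
          exact (hpint n).2 ((Int.natCast_dvd_natCast.2 (Nat.dvd_lcm_right (D i) p)).trans k3)
    have e1 : ∑ n ∈ Icc 1 N, (if DC (fun j => (c j : ℤ) * n + h j) d e then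
        (if n ≡ a [MOD W] ∧ p ∣ c i * n + h i then (1 : ℝ) else 0) else 0) =
        (((Icc 1 N).filter (fun n => n ≡ b [MOD (W * ∏ j, D' j)])).card : ℝ) := by
      rw [Finset.card_filter]
      push_cast
      refine Finset.sum_congr rfl fun n _ => ?_
      by_cases hn : n ≡ b [MOD (W * ∏ j, D' j)]
      · have k := (hiff n).2 hn
        rw [if_pos k.1, if_pos k.2, if_pos hn]
      · rw [if_neg hn]
        by_cases k1 : DC (fun j => (c j : ℤ) * n + h j) d e
        · rw [if_pos k1]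
          rw [if_neg]
          intro k2
          exact hn ((hiff n).1 ⟨k1, k2⟩)
        · rw [if_neg k1]
    have e2 : (∏ j, ∏ q ∈ (Nat.lcm (d j) (e j)).primeFactors, (1 : ℝ) / q) *
        (if p ∣ Nat.lcm (d i) (e i) then 1 else (1 : ℝ) / p) = 1 / ((∏ j, D' j : ℕ) : ℝ) := by
      have e3 : ∀ j : Fin J, ∏ q ∈ (Nat.lcm (d j) (e j)).primeFactors, (1 : ℝ) / q = 1 / (D j : ℝ) :=
        fun j => prod_one_div (hDsq j)
      simp_rw [e3]
      have e4 : ((∏ j, D' j : ℕ) : ℝ) = (∏ j, (D j : ℝ)) * (if p ∣ D i then 1 else (p : ℝ)) := by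
        push_cast
        rw [← Finset.mul_prod_erase univ (fun j => (D' j : ℝ)) (Finset.mem_univ i),
          ← Finset.mul_prod_erase univ (fun j => (D j : ℝ)) (Finset.mem_univ i)]
        have e5 : ∏ x ∈ univ.erase i, (D' x : ℝ) = ∏ x ∈ univ.erase i, (D x : ℝ) := by
          refine Finset.prod_congr rfl fun x hx => ?_
          rw [hD'j x (Finset.ne_of_mem_erase hx)]
        rw [e5, hD'i, lcm_prime_eq hp]
        ring
      rw [e4, Finset.prod_div_distrib, Finset.prod_const_one]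
      show 1 / (∏ j, (D j : ℝ)) * (if p ∣ D i then 1 else (1 : ℝ) / p) = _
      by_cases hpD : p ∣ D i
      · rw [if_pos hpD, if_pos hpD, mul_one, mul_one]
      · rw [if_neg hpD, if_neg hpD]
        rw [one_div_mul_one_div]
    rw [e1, e2]
    have e6 : ((N : ℝ) / W) * (1 / ((∏ j, D' j : ℕ) : ℝ)) = (N : ℝ) / ((W * ∏ j, D' j : ℕ) : ℝ) := by
      push_cast
      rw [div_mul_div_comm, mul_one]
    rw [e6]
    exact h2
  · rw [if_neg hC, mul_zero, sub_zero]
    rw [Finset.sum_eq_zero, abs_zero]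
    · exact zero_le_one
    · intro n _
      by_cases k1 : DC (fun j => (c j : ℤ) * n + h j) d e
      · rw [if_pos k1]
        rw [if_neg]
        rintro ⟨_, k3⟩
        apply hC
        refine ⟨?_, ?_⟩
        · intro a b hab
          by_contra hcop
          obtain ⟨q, hq, hqa, hqb⟩ := Nat.Prime.not_coprime_iff_dvd.1 hcop
          exact hres a b hab q hq (prime_not_mem (hd a) (he a) hq hqa) n
            ⟨(Int.natCast_dvd_natCast.2 hqa).trans (k1 a), (Int.natCast_dvd_natCast.2 hqb).trans (k1 b)⟩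
        · intro j hji hpj
          exact hres j i hji p hp hpE n ⟨(Int.natCast_dvd_natCast.2 hpj).trans (k1 j), (hpint n).1 k3⟩
      · rw [if_neg k1]

open Classical in
theorem sum1P {J : ℕ} (N : ℕ) (W a : ℕ) (hW : 0 < W) (F G : Fin J → ℝ → ℝ)
    (L : ℝ) (hL : 0 < L) (cF cG : Fin J → ℝ)
    (hF : ∀ j x, |F j x| ≤ 1) (hG : ∀ j x, |G j x| ≤ 1)
    (hF0 : ∀ j x, cF j < x → F j x = 0) (hG0 : ∀ j x, cG j < x → G j x = 0)
    (E : Finset ℕ) (R : ℕ) (c : Fin J → ℕ) (h : Fin J → ℕ)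
    (hEW : ∀ p : ℕ, p.Prime → p ∉ E → ¬ p ∣ W) (hEc : ∀ j, ∀ p : ℕ, p.Prime → p ∉ E → ¬ p ∣ c j)
    (hres : ∀ i j, i ≠ j → ∀ p : ℕ, p.Prime → p ∉ E → ∀ n : ℕ,
      ¬ ((p : ℤ) ∣ (c i : ℤ) * n + h i ∧ (p : ℤ) ∣ (c j : ℤ) * n + h j))
    (i : Fin J) (p : ℕ) (hp : p.Prime) (hpE : p ∉ E) :
    |∑ n ∈ Icc 1 N, (if n ≡ a [MOD W] ∧ p ∣ c i * n + h i then (1 : ℝ) else 0) *
        ∏ j, (VVm E R L (F j) ((c j : ℤ) * n + h j) * VVm E R L (G j) ((c j : ℤ) * n + h j)) -
      ((N : ℝ) / W) * cSumP F G L E (fun q => 1 / (q : ℝ)) R i p| ≤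
    Real.exp (L * (∑ j, cF j + ∑ j, cG j)) := by
  set T : (Fin J → ℕ) → (Fin J → ℕ) → ℝ := fun d e =>
    |∑ n ∈ Icc 1 N, (if DC (fun j => (c j : ℤ) * n + h j) d e then
        (if n ≡ a [MOD W] ∧ p ∣ c i * n + h i then (1 : ℝ) else 0) else 0) -
      ((N : ℝ) / W) * (if PC d e ∧ ∀ j, j ≠ i → ¬ p ∣ Nat.lcm (d j) (e j) then
        ((∏ j, ∏ q ∈ (Nat.lcm (d j) (e j)).primeFactors, (1 : ℝ) / q) *
        (if p ∣ Nat.lcm (d i) (e i) then 1 else (1 : ℝ) / p)) else 0)| with hT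
  have e0 : ∑ n ∈ Icc 1 N, (if n ≡ a [MOD W] ∧ p ∣ c i * n + h i then (1 : ℝ) else 0) *
        ∏ j, (VVm E R L (F j) ((c j : ℤ) * n + h j) * VVm E R L (G j) ((c j : ℤ) * n + h j)) -
      ((N : ℝ) / W) * cSumP F G L E (fun q => 1 / (q : ℝ)) R i p =
      ∑ d ∈ Fintype.piFinset (fun _ : Fin J => adm E R), ∑ e ∈ Fintype.piFinset (fun _ : Fin J => adm E R),
        wt F G L d e * (∑ n ∈ Icc 1 N, (if DC (fun j => (c j : ℤ) * n + h j) d e then
        (if n ≡ a [MOD W] ∧ p ∣ c i * n + h i then (1 : ℝ) else 0) else 0) -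
      ((N : ℝ) / W) * (if PC d e ∧ ∀ j, j ≠ i → ¬ p ∣ Nat.lcm (d j) (e j) then
        ((∏ j, ∏ q ∈ (Nat.lcm (d j) (e j)).primeFactors, (1 : ℝ) / q) *
        (if p ∣ Nat.lcm (d i) (e i) then 1 else (1 : ℝ) / p)) else 0)) := by
    unfold cSumP
    simp_rw [VV_prod, Finset.mul_sum]
    rw [Finset.sum_comm, ← Finset.sum_sub_distrib]
    refine Finset.sum_congr rfl fun d _ => ?_
    rw [Finset.sum_comm, ← Finset.sum_sub_distrib]
    refine Finset.sum_congr rfl fun e _ => ?_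
    rw [mul_sub, Finset.mul_sum]
    congr 1
    · refine Finset.sum_congr rfl fun n _ => ?_
      split_ifs <;> ring
    · by_cases hC : PC d e ∧ ∀ j, j ≠ i → ¬ p ∣ Nat.lcm (d j) (e j)
      · rw [if_pos hC, if_pos hC]
        ring
      · rw [if_neg hC, if_neg hC]
        ring
  rw [e0]
  have e1 : |∑ d ∈ Fintype.piFinset (fun _ : Fin J => adm E R), ∑ e ∈ Fintype.piFinset (fun _ : Fin J => adm E R),
        wt F G L d e * (∑ n ∈ Icc 1 N, (if DC (fun j => (c j : ℤ) * n + h j) d e then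
        (if n ≡ a [MOD W] ∧ p ∣ c i * n + h i then (1 : ℝ) else 0) else 0) -
      ((N : ℝ) / W) * (if PC d e ∧ ∀ j, j ≠ i → ¬ p ∣ Nat.lcm (d j) (e j) then
        ((∏ j, ∏ q ∈ (Nat.lcm (d j) (e j)).primeFactors, (1 : ℝ) / q) *
        (if p ∣ Nat.lcm (d i) (e i) then 1 else (1 : ℝ) / p)) else 0))| ≤
      ∑ d ∈ Fintype.piFinset (fun _ : Fin J => adm E R), ∑ e ∈ Fintype.piFinset (fun _ : Fin J => adm E R),
        |wt F G L d e| * T d e := by
    refine (Finset.abs_sum_le_sum_abs _ _).trans (Finset.sum_le_sum fun d _ => ?_)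
    refine (Finset.abs_sum_le_sum_abs _ _).trans (Finset.sum_le_sum fun e _ => ?_)
    rw [abs_mul]
  refine e1.trans ?_
  refine (support_bound (fun _ => E) R L 1 hL zero_le_one F G cF cG hF hG hF0 hG0 T
    (fun _ _ => abs_nonneg _)).trans ?_
  rw [one_pow, one_mul]
  have key : ∀ d ∈ supp (fun _ : Fin J => E) R L cF, ∀ e ∈ supp (fun _ : Fin J => E) R L cG, T d e ≤ 1 := by
    intro d hd e he
    rw [mem_supp] at hd he
    exact cnt_p N W a hW E R c h hEW hEc hres i p hp hpE d e (fun j => (hd j).1) (fun j => (he j).1)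
  calc _ ≤ ∑ d ∈ supp (fun _ : Fin J => E) R L cF, ∑ e ∈ supp (fun _ : Fin J => E) R L cG, (1 : ℝ) :=
        Finset.sum_le_sum fun d hd => Finset.sum_le_sum fun e he => key d hd e he
    _ = ((supp (fun _ : Fin J => E) R L cF).card : ℝ) * ((supp (fun _ : Fin J => E) R L cG).card : ℝ) := by
        rw [Finset.sum_const, Finset.sum_const, nsmul_eq_mul, nsmul_eq_mul, mul_one]
    _ ≤ Real.exp (L * ∑ j, cF j) * Real.exp (L * ∑ j, cG j) := by
        have := supp_card (fun _ : Fin J => E) R L cF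
        have := supp_card (fun _ : Fin J => E) R L cG
        gcongr
    _ = _ := by rw [mul_add, Real.exp_add]

theorem s_s1p (hCP : S_CP) : S_S1P := by
  intro K B f c A hf b hb
  classical
  obtain ⟨hsm, hcs, hf0, hc, hA, hf1⟩ := hf
  have hex : ∀ a a' : Fin K → Fin B, ∃ C δ : ℝ, 0 < C ∧ 0 < δ ∧
      ∀ (L : ℝ) (E : Finset ℕ) (w : ℕ → ℝ) (R : ℕ) (i : Fin K) (p : ℕ),
      1 / δ ≤ L →
      (∀ j x, Real.log R / L < x → f (a j) x = 0 ∧ f (a' j) x = 0) →
      (∀ q ∈ E, q.Prime) → (∀ q : ℕ, q.Prime → (q : ℝ) ≤ 1 / δ → q ∈ E) → p.Prime → p ∉ E →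
      (∑ q ∈ insert p E, Real.log q / q ≤ L ^ (1 / 4 : ℝ)) →
      (∑ q ∈ insert p E, (1 : ℝ) / q ≤ Real.log L / 32) →
      (∀ q : ℕ, q.Prime → q ∉ E → |w q - 1 / q| ≤ 2 / (q : ℝ) ^ 2) →
      (L * BE E) ^ K * |cSumP (fun j => f (a j)) (fun j => f (a' j)) L E w R i p| ≤
        C * ((1 / (p : ℝ)) * (Real.log p / L) ^ 2) := fun a a' =>
    hCP K (fun j => f (a j)) (fun j => f (a' j)) (fun j => hsm _) (fun j => hsm _)
      (fun j => hcs _) (fun j => hcs _)
  choose Cf δf hC0 hδ0 hmain using hex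
  refine ⟨∑ a ∈ A, ∑ a' ∈ A, Cf a a' + 1, ?_, ?_⟩
  · have : 0 ≤ ∑ a ∈ A, ∑ a' ∈ A, Cf a a' :=
      Finset.sum_nonneg fun a _ => Finset.sum_nonneg fun a' _ => (hC0 a a').le
    linarith
  have hev : ∀ᶠ z : ℝ in atTop, ∀ a ∈ A, ∀ a' ∈ A, 1 / δf a a' ≤ LL z ∧ 1 / δf a a' ≤ Real.log z := by
    rw [Filter.eventually_all_finset]
    intro a _
    rw [Filter.eventually_all_finset]
    intro a' _
    exact (LL_tendsto.eventually_ge_atTop _).and (Real.tendsto_log_atTop.eventually_ge_atTop _)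
  filter_upwards [hev, LL_tendsto.eventually_ge_atTop 2, s_e1 b hb,
    Real.tendsto_log_atTop.eventually_ge_atTop 1] with z h1 h2 h3 h4
  intro E W a0 N α β i p hE hW hWE hS hp hpE
  obtain ⟨hS1, hS2⟩ := hS
  have hBE : 0 < BE E := BE_pos fun p hp => hE.1 p hp
  have hLB : 0 < LL z * BE E := by positivity
  have hNn : (0 : ℝ) ≤ (N : ℝ) / W := by positivity
  have hEsum := h3 E {p} hE (by
    intro q hq
    rw [Finset.mem_singleton] at hq
    subst hq
    exact ⟨hp, hpE⟩) (by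
    rw [Finset.card_singleton]
    push_cast
    nlinarith)
  have hins : E ∪ {p} = insert p E := by
    rw [Finset.union_comm, Finset.insert_eq]
  rw [hins] at hEsum
  have hRR : ∀ x : ℝ, Real.log (RR z) / LL z < x → 1 / 2 < x := by
    intro x hx
    refine lt_of_le_of_lt ?_ hx
    rw [le_div_iff₀ (by linarith)]
    have := RR_ge (LL z) h2
    unfold RR
    linarith
  have hone : ∀ a ∈ A, ∀ a' ∈ A, ∑ n ∈ Icc 1 N,
      (if n ≡ a0 [MOD W] ∧ p ∣ α i * n + β i then (1 : ℝ) else 0) *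
      ∏ j, (VVm E (RR z) (LL z) (f (a j)) ((α j : ℤ) * n + (β j : ℤ)) *
        VVm E (RR z) (LL z) (f (a' j)) ((α j : ℤ) * n + (β j : ℤ))) ≤
      Cf a a' * (((N : ℝ) / W) * (1 / (LL z * BE E)) ^ K * ((1 / (p : ℝ)) * (Real.log p / LL z) ^ 2)) +
        2 * Real.exp (2 * LL z) := by
    intro a ha a' ha'
    have hsum : ∑ j, c (a j) + ∑ j, c (a' j) ≤ 2 := by
      have := hA a ha
      have := hA a' ha'
      linarith
    have k1 := sum1P N W a0 hW (fun j => f (a j)) (fun j => f (a' j)) (LL z) (by linarith)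
      (fun j => c (a j)) (fun j => c (a' j)) (fun j x => hf1 _ x) (fun j x => hf1 _ x)
      (fun j x hx => hf0 _ x hx) (fun j x hx => hf0 _ x hx) E (RR z) α β
      (fun p hp h h' => h (hWE p hp h')) (fun j p hp h h' => h (hS1 j p hp h'))
      (by
        intro i j hij p hp hpE n hh
        apply hS2 j i hij.symm p hp hpE
        have h7 := dvd_sub (hh.1.mul_left (α j : ℤ)) (hh.2.mul_left (α i : ℤ))
        have h8 : (α j : ℤ) * ((α i : ℤ) * n + β i) - (α i : ℤ) * ((α j : ℤ) * n + β j) =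
          (α j : ℤ) * β i - (α i : ℤ) * β j := by ring
        rwa [h8] at h7) i p hp hpE
    have k2 := hmain a a' (LL z) E (fun q => 1 / (q : ℝ)) (RR z) i p (h1 a ha a' ha').1
      (fun j x hx => ⟨hf0 _ x ((hc _).2.trans_lt (hRR x hx)), hf0 _ x ((hc _).2.trans_lt (hRR x hx))⟩)
      (fun q hq => hE.1 q hq)
      (fun q hq hql => hE.2.1 q hq (by
        calc (q : ℝ) ≤ 1 / δf a a' := hql
          _ ≤ Real.log z := (h1 a ha a' ha').2
          _ = (Real.log z) ^ 1 := (pow_one _).symm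
          _ ≤ (Real.log z) ^ b := pow_le_pow_right₀ h4 (by omega)))
      hp hpE hEsum.1 hEsum.2 (fun q _ _ => w_one q)
    set SS := cSumP (fun j => f (a j)) (fun j => f (a' j)) (LL z) E (fun q => 1 / (q : ℝ)) (RR z) i p
    have k4 := (abs_le.1 k1).2
    have k5 : |SS| ≤ (1 / (LL z * BE E)) ^ K * (Cf a a' * ((1 / (p : ℝ)) * (Real.log p / LL z) ^ 2)) := by
      rw [one_div, inv_pow, ← div_eq_inv_mul, le_div_iff₀ (by positivity)]
      rw [mul_comm]
      exact k2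
    have k6 : SS ≤ (1 / (LL z * BE E)) ^ K * (Cf a a' * ((1 / (p : ℝ)) * (Real.log p / LL z) ^ 2)) :=
      (le_abs_self _).trans k5
    have k7 := mul_le_mul_of_nonneg_left k6 hNn
    have k8 : Real.exp (LL z * (∑ j, c (a j) + ∑ j, c (a' j))) ≤ Real.exp (2 * LL z) := by
      apply Real.exp_le_exp.2
      nlinarith
    have k9 := Real.exp_pos (2 * LL z)
    have k10 : ((N : ℝ) / W) * ((1 / (LL z * BE E)) ^ K *
        (Cf a a' * ((1 / (p : ℝ)) * (Real.log p / LL z) ^ 2))) =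
        Cf a a' * (((N : ℝ) / W) * (1 / (LL z * BE E)) ^ K *
          ((1 / (p : ℝ)) * (Real.log p / LL z) ^ 2)) := by ring
    rw [k10] at k7
    linarith
  have e0 : ∑ n ∈ (Icc 1 N).filter (fun n => n ≡ a0 [MOD W] ∧ p ∣ α i * n + β i),
        sqw E z f A (fun j => (α j : ℤ) * (n : ℤ) + (β j : ℤ)) ^ 2 =
      ∑ a ∈ A, ∑ a' ∈ A, ∑ n ∈ Icc 1 N, (if n ≡ a0 [MOD W] ∧ p ∣ α i * n + β i then (1 : ℝ) else 0) *
      ∏ j, (VVm E (RR z) (LL z) (f (a j)) ((α j : ℤ) * n + (β j : ℤ)) *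
        VVm E (RR z) (LL z) (f (a' j)) ((α j : ℤ) * n + (β j : ℤ))) := by
    rw [Finset.sum_filter]
    have e1 : ∀ n ∈ Icc 1 N, (if n ≡ a0 [MOD W] ∧ p ∣ α i * n + β i then
        sqw E z f A (fun j => (α j : ℤ) * (n : ℤ) + (β j : ℤ)) ^ 2 else 0) =
        ∑ a ∈ A, ∑ a' ∈ A, (if n ≡ a0 [MOD W] ∧ p ∣ α i * n + β i then (1 : ℝ) else 0) *
      ∏ j, (VVm E (RR z) (LL z) (f (a j)) ((α j : ℤ) * n + (β j : ℤ)) *
        VVm E (RR z) (LL z) (f (a' j)) ((α j : ℤ) * n + (β j : ℤ))) := by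
      intro n _
      rw [sqw_sq]
      by_cases hn : n ≡ a0 [MOD W] ∧ p ∣ α i * n + β i
      · simp only [if_pos hn, one_mul]
      · simp only [if_neg hn, zero_mul, Finset.sum_const_zero]
    rw [Finset.sum_congr rfl e1, Finset.sum_comm]
    refine Finset.sum_congr rfl fun a _ => ?_
    rw [Finset.sum_comm]
  rw [e0]
  refine (Finset.sum_le_sum fun a ha => Finset.sum_le_sum fun a' ha' => hone a ha a' ha').trans ?_
  simp_rw [Finset.sum_add_distrib, ← Finset.sum_mul, Finset.sum_const, nsmul_eq_mul]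
  have hcoef : 0 ≤ ((N : ℝ) / W) * (1 / (LL z * BE E)) ^ K * ((1 / (p : ℝ)) * (Real.log p / LL z) ^ 2) := by
    positivity
  have : (A.card : ℝ) * ((A.card : ℝ) * 2) * Real.exp (2 * LL z) =
      (A.card : ℝ) ^ 2 * (2 * Real.exp (2 * LL z)) := by ring
  rw [this]
  nlinarith

end Pool.Agent.L7h32.UM
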